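import Pool.Agent.H79.Maze.Pass

namespace Pool.H79.Maze

open List

variable {L : Lad}

/-- `(s, δ)` can be approached from the left: either along row `δ`, or through a gate `r ≤ s`. -/
def FromL (L : Lad) (s : ℤ) (δ : Bool) (n : ℕ) (q : St) : Prop :=
  (q.2 = δ ∧ q.1 < s ∧ s ≤ q.1 + n ∧ ∀ c, q.1 ≤ c → c < s → L.h δ c) ∨
  ∃ r, r ≤ s ∧ L.v r ∧ (∀ c, r ≤ c → c < s → L.h δ c) ∧ s ≤ r + n ∧ C L r n q

def FromR (L : Lad) (s : ℤ) (δ : Bool) (n : ℕ) (q : St) : Prop := FromL L.mir (-s) δ n (mq q)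

lemma FromL.mono {s : ℤ} {δ : Bool} {n m : ℕ} {q : St} (h : FromL L s δ n q) (hm : n ≤ m) :
    FromL L s δ m q := by
  rcases h with ⟨h1, h2, h3, h4⟩ | ⟨r, h1, h2, h3, h4, h5⟩
  · exact Or.inl ⟨h1, h2, by omega, h4⟩
  · exact Or.inr ⟨r, h1, h2, h3, by omega, h5.mono hm⟩

lemma FromL.step {s : ℤ} {δ : Bool} {n : ℕ} {p q : St} (h : FromL L s δ n q) (ha : adj L p q)
    (hp : p ≠ (s, δ)) : FromL L s δ (n + 1) p := by
  rcases h with ⟨h1, h2, h3, h4⟩ | ⟨r, h1, h2, h3, h4, h5⟩
  · rcases ha with ⟨e, ⟨e1, e2⟩ | ⟨e1, e2⟩⟩ | ⟨e, e1, e2⟩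
    · left
      refine ⟨by rw [e, h1], by omega, by push_cast; omega, fun c k1 k2 => ?_⟩
      rcases eq_or_lt_of_le k1 with k3 | k3
      · rw [← k3, ← h1, ← e]; exact e2
      · exact h4 c (by omega) k2
    · left
      have hps : p.1 ≠ s := by
        intro hh
        exact hp (Prod.ext hh (by rw [e, h1]))
      exact ⟨by rw [e, h1], by omega, by push_cast; omega, fun c k1 k2 => h4 c (by omega) k2⟩
    · right
      refine ⟨p.1, by omega, e2, fun c k1 k2 => h4 c (by omega) k2, by push_cast; omega, ?_⟩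
      exact C.base _ _ rfl
  · right
    exact ⟨r, h1, h2, h3, by push_cast; omega, C.step _ _ _ ha h5⟩

lemma FromR.mono {s : ℤ} {δ : Bool} {n m : ℕ} {q : St} (h : FromR L s δ n q) (hm : n ≤ m) :
    FromR L s δ m q := FromL.mono h hm

lemma FromR.step {s : ℤ} {δ : Bool} {n : ℕ} {p q : St} (h : FromR L s δ n q) (ha : adj L p q)
    (hp : p ≠ (s, δ)) : FromR L s δ (n + 1) p := by
  apply FromL.step h (adj_mir ha)
  intro e
  apply hp
  have := congrArg mq e
  rw [mq_mq] at this
  rw [this]; simp [mq]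

/-- chains to `d` -/
inductive Ch (L : Lad) (d : St) : ℕ → St → Prop
  | base : Ch L d 0 d
  | step (n : ℕ) (p q : St) (h : adj L p q) (hq : Ch L d n q) : Ch L d (n + 1) p

lemma start {s : ℤ} {δ : Bool} {a : St} (h : adj L a (s, δ)) :
    FromL L s δ 1 a ∨ FromR L s δ 1 a := by
  rcases h with ⟨e, ⟨e1, e2⟩ | ⟨e1, e2⟩⟩ | ⟨e, e1, e2⟩
  · simp only at e e1
    left; left
    refine ⟨e, by omega, by push_cast; omega, fun c k1 k2 => ?_⟩
    have : c = a.1 := by omega
    rw [this, ← e]; exact e2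
  · simp only at e e1 e2
    right; left
    refine ⟨e, ?_, ?_, fun c k1 k2 => ?_⟩
    · simp only [mq]; omega
    · simp only [mq]; push_cast; omega
    · simp only [mq] at k1
      rw [mir_h]
      have : -c - 1 = s := by omega
      rw [this, ← e]; exact e2
  · simp only at e e1 e2
    left; right
    refine ⟨s, le_rfl, by rw [← e]; exact e2, fun c k1 k2 => by omega, by push_cast; omega,
      C.base _ _ e⟩

lemma Ch.G {s : ℤ} {δ : Bool} {n : ℕ} {a : St} (h : Ch L (s, δ) n a) :
    a ≠ (s, δ) → FromL L s δ n a ∨ FromR L s δ n a := by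
  induction h with
  | base => intro h; exact absurd rfl h
  | step n p q hpq _ ih =>
    intro hp
    by_cases hq : q = (s, δ)
    · subst hq
      rcases start hpq with h | h
      · exact Or.inl (h.mono (by omega))
      · exact Or.inr (h.mono (by omega))
    · rcases ih hq with h | h
      · exact Or.inl (h.step hpq hp)
      · exact Or.inr (h.step hpq hp)

/-- an invariant which is kept by single steps that avoid `d` is kept by unseen runs -/
lemma keep {s : ℤ} {δ : Bool} (G : ℕ → St → Prop)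
    (hstep : ∀ n p q, G n q → adj L p q → p ≠ (s, δ) → G (n + 1) p)
    (hmono : ∀ n q, G n q → G (n + 1) q) (w : List Mac) : ∀ (n : ℕ) (q : St), G n q →
    ¬ vis L s δ w q → G (n + 2 * w.length) (run L w q) := by
  induction w with
  | nil => intro n q h _; simpa using h
  | cons a w ih =>
    intro n q h hv
    rw [vis_cons, not_or] at hv
    obtain ⟨hv1, hv2⟩ := hv
    obtain ⟨p, h1, h2, h3⟩ := act_path L a q
    have hpd : p ≠ (s, δ) := by
      intro e
      apply hv1
      rw [e] at h3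
      rcases h2 with h2 | ⟨-, h2⟩
      · exact ⟨h3.symm, Or.inl (by rw [h2, e])⟩
      · exact ⟨h3.symm, Or.inr (by rw [e] at h2; exact h2)⟩
    have had : act L a q ≠ (s, δ) := by
      intro e
      exact hv1 (by rw [e]; exact ⟨rfl, Or.inl rfl⟩)
    have g1 : G (n + 1) p := by
      rcases h1 with h1 | h1
      · rw [h1]; exact hmono _ _ h
      · exact hstep _ _ _ h (adj_symm h1) hpd
    have g2 : G (n + 2) (act L a q) := by
      rcases h2 with h2 | ⟨h2, -⟩
      · rw [h2]; exact hmono _ _ g1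
      · exact hstep _ _ _ g1 (adj_symm h2) had
    have := ih (n + 2) _ g2 hv2
    rw [run_cons, length_cons]
    have e : n + 2 * (w.length + 1) = n + 2 + 2 * w.length := by ring
    rw [e]; exact this

lemma strand {s : ℤ} {δ : Bool} (n : ℕ) : ∀ (x : ℤ), x < s → s ≤ x + n →
    (∀ c, x ≤ c → c < s → L.h δ c) → vis L s δ (replicate n (.r δ)) (x, δ) := by
  induction n with
  | zero => intro x h1 h2; push_cast at h2; omega
  | succ n ih =>
    intro x h1 h2 h3
    rw [replicate_succ, vis_cons, act_r_same (h3 x le_rfl h1)]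
    rcases eq_or_lt_of_le (show x + 1 ≤ s by omega) with h4 | h4
    · left; exact ⟨h4, Or.inl rfl⟩
    · right
      exact ih (x + 1) h4 (by push_cast at h2; omega) (fun c k1 k2 => h3 c (by omega) k2)

/-- the word for one side and one row -/
def TR (k : ℕ) (δ : Bool) : List Mac :=
  replicate k (.r δ) ++ (Pw (3 * k) δ ++ Rw (3 * k + 2 * (Pw (3 * k) δ).length) δ)

theorem TR_spec {s : ℤ} {δ : Bool} {k : ℕ} {q : St} (h : FromL L s δ k q) :
    vis L s δ (TR k δ) q := by
  rw [TR, vis_append]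
  rcases h with ⟨h1, h2, h3, h4⟩ | ⟨r, h1, h2, h3, h4, h5⟩
  · left
    have e : q = (q.1, δ) := Prod.ext rfl h1
    rw [e]
    exact strand k q.1 h2 h3 h4
  · right
    have hC : C L r (3 * k) (run L (replicate k (.r δ)) q) := by
      have := h5.run (replicate k (.r δ))
      rw [length_replicate] at this
      exact this.mono (by omega)
    set q1 := run L (replicate k (.r δ)) q
    rw [vis_append]
    rcases left_pass h1 h2 (s := s) (δ := δ) q1 hC with h6 | h6
    · exact Or.inl h6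
    · right
      exact right_sweep h1 h2 h3 (K := 3 * k + 2 * (Pw (3 * k) δ).length) (by push_cast; omega)
        _ h6 (hC.run _)

theorem TR_spec' {s : ℤ} {δ : Bool} {k : ℕ} {q : St} (h : FromR L s δ k q) :
    vis L s δ ((TR k δ).map mm) q := by
  have h1 := TR_spec (L := L.mir) h
  have h2 := vis_mir L s δ ((TR k δ).map mm) q
  rw [map_map] at h2
  have e : (mm ∘ mm) = id := by funext a; simp
  rw [e, map_id] at h2
  exact h2.1 h1

lemma full_aux {s : ℤ} {δ : Bool} {k k1 k2 k3 : ℕ} {q : St} (w1 w2 w3 w4 : List Mac)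
    (e1 : k1 = k + 2 * w1.length) (e2 : k2 = k1 + 2 * w2.length) (e3 : k3 = k2 + 2 * w3.length)
    (s1 : ∀ q, FromL L s false k q → vis L s false w1 q)
    (s2 : ∀ q, FromL L s true k1 q → vis L s true w2 q)
    (s3 : ∀ q, FromR L s false k2 q → vis L s false w3 q)
    (s4 : ∀ q, FromR L s true k3 q → vis L s true w4 q)
    (h : FromL L s δ k q ∨ FromR L s δ k q) : vis L s δ (w1 ++ (w2 ++ (w3 ++ w4))) q := by
  by_contra hv
  simp only [vis_append, not_or] at hv
  obtain ⟨v1, v2, v3, v4⟩ := hv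
  have kl : ∀ (w : List Mac) (n : ℕ) (q : St), FromL L s δ n q → ¬ vis L s δ w q →
      FromL L s δ (n + 2 * w.length) (run L w q) :=
    keep (FromL L s δ) (fun n p q h ha hp => h.step ha hp) (fun n q h => h.mono (by omega))
  have kr : ∀ (w : List Mac) (n : ℕ) (q : St), FromR L s δ n q → ¬ vis L s δ w q →
      FromR L s δ (n + 2 * w.length) (run L w q) :=
    keep (FromR L s δ) (fun n p q h ha hp => h.step ha hp) (fun n q h => h.mono (by omega))
  rcases h with g | g
  · have g1 := kl _ _ _ g v1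
    rw [← e1] at g1
    cases δ with
    | false => exact v1 (s1 _ g)
    | true => exact v2 (s2 _ g1)
  · have g1 := kr _ _ _ g v1
    rw [← e1] at g1
    have g2 := kr _ _ _ g1 v2
    rw [← e2] at g2
    have g3 := kr _ _ _ g2 v3
    rw [← e3] at g3
    cases δ with
    | false => exact v3 (s3 _ g2)
    | true => exact v4 (s4 _ g3)

lemma exL (δ : Bool) (k : ℕ) : ∃ w : List Mac, ∀ (L : Lad) (s : ℤ) (q : St),
    FromL L s δ k q → vis L s δ w q := ⟨TR k δ, fun _ _ _ h => TR_spec h⟩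

lemma exR (δ : Bool) (k : ℕ) : ∃ w : List Mac, ∀ (L : Lad) (s : ℤ) (q : St),
    FromR L s δ k q → vis L s δ w q := ⟨(TR k δ).map mm, fun _ _ _ h => TR_spec' h⟩

theorem exists_full (k : ℕ) : ∃ w : List Mac, ∀ (L : Lad) (s : ℤ) (δ : Bool) (q : St) (n : ℕ),
    n ≤ k → Ch L (s, δ) n q → q ≠ (s, δ) → vis L s δ w q := by
  obtain ⟨w1, s1⟩ := exL false k
  obtain ⟨w2, s2⟩ := exL true (k + 2 * w1.length)
  obtain ⟨w3, s3⟩ := exR false (k + 2 * w1.length + 2 * w2.length)
  obtain ⟨w4, s4⟩ := exR true (k + 2 * w1.length + 2 * w2.length + 2 * w3.length)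
  refine ⟨w1 ++ (w2 ++ (w3 ++ w4)), fun L s δ q n hn h hq => full_aux w1 w2 w3 w4 rfl rfl rfl
    (s1 L s) (s2 L s) (s3 L s) (s4 L s) ?_⟩
  rcases h.G hq with g | g
  · exact Or.inl (g.mono hn)
  · exact Or.inr (g.mono hn)

end Pool.H79.Maze
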