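import Mathlib

namespace Pool.H79.Maze

/-- A ladder: `h ρ x` = the edge from `(x, ρ)` to `(x+1, ρ)`, `v x` = the rung at `x`. -/
structure Lad where
  h : Bool → ℤ → Prop
  v : ℤ → Prop

abbrev St := ℤ × Bool

inductive Mac
  | r (μ : Bool)
  | l (μ : Bool)
  | z (μ : Bool)

open Classical in
noncomputable def act (L : Lad) : Mac → St → St
  | .r μ, q => if L.h q.2 q.1 then (q.1 + 1, if L.v (q.1 + 1) then μ else q.2)
      else (q.1, if L.v q.1 then μ else q.2)
  | .l μ, q => if L.h q.2 (q.1 - 1) then (q.1 - 1, if L.v (q.1 - 1) then μ else q.2)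
      else (q.1, if L.v q.1 then μ else q.2)
  | .z μ, q => (q.1, if L.v q.1 then μ else q.2)

noncomputable def run (L : Lad) : List Mac → St → St
  | [], q => q
  | a :: w, q => run L w (act L a q)

@[simp] lemma run_nil (L : Lad) (q : St) : run L [] q = q := rfl
@[simp] lemma run_cons (L : Lad) (a : Mac) (w : List Mac) (q : St) :
    run L (a :: w) q = run L w (act L a q) := rfl

lemma run_append (L : Lad) (u w : List Mac) (q : St) :
    run L (u ++ w) q = run L w (run L u q) := by
  induction u generalizing q with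
  | nil => rfl
  | cons a u ih => simp [ih]

/-- the state `q` (just after a macro letter) has seen `(s, δ)` -/
def hit (L : Lad) (s : ℤ) (δ : Bool) (q : St) : Prop := q.1 = s ∧ (q.2 = δ ∨ L.v s)

def vis (L : Lad) (s : ℤ) (δ : Bool) : List Mac → St → Prop
  | [], _ => False
  | a :: w, q => hit L s δ (act L a q) ∨ vis L s δ w (act L a q)

@[simp] lemma vis_nil (L : Lad) (s : ℤ) (δ : Bool) (q : St) : vis L s δ [] q ↔ False := Iff.rfl
@[simp] lemma vis_cons (L : Lad) (s : ℤ) (δ : Bool) (a : Mac) (w : List Mac) (q : St) :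
    vis L s δ (a :: w) q ↔ hit L s δ (act L a q) ∨ vis L s δ w (act L a q) := Iff.rfl

lemma vis_append (L : Lad) (s : ℤ) (δ : Bool) (u w : List Mac) (q : St) :
    vis L s δ (u ++ w) q ↔ vis L s δ u q ∨ vis L s δ w (run L u q) := by
  induction u generalizing q with
  | nil => simp
  | cons a u ih => simp [ih, or_assoc]

/-- adjacency in the ladder -/
def adj (L : Lad) (p q : St) : Prop :=
  (p.2 = q.2 ∧ ((q.1 = p.1 + 1 ∧ L.h p.2 p.1) ∨ (p.1 = q.1 + 1 ∧ L.h p.2 q.1))) ∨
  (p.1 = q.1 ∧ p.2 ≠ q.2 ∧ L.v p.1)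

lemma adj_symm {L : Lad} {p q : St} (h : adj L p q) : adj L q p := by
  rcases h with ⟨e, h | h⟩ | ⟨e, h1, h2⟩
  · exact Or.inl ⟨e.symm, Or.inr ⟨h.1, e ▸ h.2⟩⟩
  · exact Or.inl ⟨e.symm, Or.inl ⟨h.1, e ▸ h.2⟩⟩
  · exact Or.inr ⟨e.symm, fun h => h1 h.symm, e ▸ h2⟩

/-- `C L r n q`: column `r` is at distance at most `n` from `q`. -/
inductive C (L : Lad) (r : ℤ) : ℕ → St → Prop
  | base (n : ℕ) (q : St) (h : q.1 = r) : C L r n q
  | step (n : ℕ) (p q : St) (h : adj L p q) (hq : C L r n q) : C L r (n + 1) p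

lemma C.succ {L : Lad} {r : ℤ} {n : ℕ} {q : St} (h : C L r n q) : C L r (n + 1) q := by
  induction h with
  | base n q h => exact C.base _ _ h
  | step n p q h _ ih => exact C.step _ _ _ h ih

lemma C.mono {L : Lad} {r : ℤ} {n m : ℕ} {q : St} (h : C L r n q) (hm : n ≤ m) : C L r m q := by
  induction hm with
  | refl => exact h
  | step _ ih => exact ih.succ

lemma C.dist {L : Lad} {r : ℤ} {n : ℕ} {q : St} (h : C L r n q) :
    q.1 ≤ r + n ∧ r ≤ q.1 + n := by
  induction h with
  | base n q h => constructor <;> omega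
  | step n p q h _ ih =>
    rcases h with ⟨e, h | h⟩ | ⟨e, h1, h2⟩
    · have := h.1; push_cast; omega
    · have := h.1; push_cast; omega
    · push_cast; omega

/-- one macro letter is at most two steps in the ladder -/
lemma act_path (L : Lad) (a : Mac) (q : St) :
    ∃ p : St, (p = q ∨ adj L q p) ∧ (act L a q = p ∨ (adj L p (act L a q) ∧ L.v p.1)) ∧
      p.1 = (act L a q).1 := by
  obtain ⟨x, ρ⟩ := q
  cases a with
  | r μ =>
    by_cases h : L.h ρ x
    · refine ⟨(x + 1, ρ), Or.inr (Or.inl ⟨rfl, Or.inl ⟨rfl, h⟩⟩), ?_, ?_⟩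
      · by_cases hv : L.v (x + 1)
        · by_cases hm : μ = ρ
          · left; simp [act, h, hm]
          · right; simp only [act, h, if_true, hv]
            exact ⟨Or.inr ⟨rfl, fun e => hm e.symm, hv⟩, trivial⟩
        · left; simp [act, h, hv]
      · simp [act, h]
    · refine ⟨(x, ρ), Or.inl rfl, ?_, ?_⟩
      · by_cases hv : L.v x
        · by_cases hm : μ = ρ
          · left; simp [act, h, hm]
          · right; simp only [act, h, if_false, hv, if_true]
            exact ⟨Or.inr ⟨rfl, fun e => hm e.symm, hv⟩, trivial⟩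
        · left; simp [act, h, hv]
      · simp [act, h]
  | l μ =>
    by_cases h : L.h ρ (x - 1)
    · refine ⟨(x - 1, ρ), Or.inr (Or.inl ⟨rfl, Or.inr ⟨by simp, h⟩⟩), ?_, ?_⟩
      · by_cases hv : L.v (x - 1)
        · by_cases hm : μ = ρ
          · left; simp [act, h, hm]
          · right; simp only [act, h, if_true, hv]
            exact ⟨Or.inr ⟨rfl, fun e => hm e.symm, hv⟩, trivial⟩
        · left; simp [act, h, hv]
      · simp [act, h]
    · refine ⟨(x, ρ), Or.inl rfl, ?_, ?_⟩
      · by_cases hv : L.v x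
        · by_cases hm : μ = ρ
          · left; simp [act, h, hm]
          · right; simp only [act, h, if_false, hv, if_true]
            exact ⟨Or.inr ⟨rfl, fun e => hm e.symm, hv⟩, trivial⟩
        · left; simp [act, h, hv]
      · simp [act, h]
  | z μ =>
    refine ⟨(x, ρ), Or.inl rfl, ?_, ?_⟩
    · by_cases hv : L.v x
      · by_cases hm : μ = ρ
        · left; simp [act, hm]
        · right; simp only [act, hv, if_true]
          exact ⟨Or.inr ⟨rfl, fun e => hm e.symm, hv⟩, trivial⟩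
      · left; simp [act, hv]
    · simp [act]

lemma C.act {L : Lad} {r : ℤ} {n : ℕ} {q : St} (h : C L r n q) (a : Mac) :
    C L r (n + 2) (act L a q) := by
  obtain ⟨p, h1, h2, -⟩ := act_path L a q
  have hp : C L r (n + 1) p := by
    rcases h1 with h1 | h1
    · rw [h1]; exact h.succ
    · exact C.step _ _ _ (adj_symm h1) h
  rcases h2 with h2 | ⟨h2, -⟩
  · rw [h2]; exact hp.succ
  · exact C.step _ _ _ (adj_symm h2) hp

lemma C.run {L : Lad} {r : ℤ} {n : ℕ} {q : St} (h : C L r n q) (w : List Mac) :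
    C L r (n + 2 * w.length) (run L w q) := by
  induction w generalizing q n with
  | nil => simpa using h
  | cons a w ih =>
    have := ih (h.act a)
    simp only [run_cons, List.length_cons]
    exact this.mono (by omega)

/-! ### mirror -/

def Lad.mir (L : Lad) : Lad where
  h ρ x := L.h ρ (-x - 1)
  v x := L.v (-x)

def mq (q : St) : St := (-q.1, q.2)

def mm : Mac → Mac
  | .r μ => .l μ
  | .l μ => .r μ
  | .z μ => .z μ

@[simp] lemma mq_mq (q : St) : mq (mq q) = q := by simp [mq]
@[simp] lemma mm_mm (a : Mac) : mm (mm a) = a := by cases a <;> rfl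

@[simp] lemma mir_mir (L : Lad) : L.mir.mir = L := by
  cases L with
  | mk h v =>
    simp only [Lad.mir, Lad.mk.injEq]
    constructor
    · funext ρ x; congr 1; ring
    · funext x; simp

lemma mir_h (L : Lad) (ρ : Bool) (x : ℤ) : L.mir.h ρ x ↔ L.h ρ (-x - 1) := Iff.rfl
lemma mir_v (L : Lad) (x : ℤ) : L.mir.v x ↔ L.v (-x) := Iff.rfl

lemma act_mir (L : Lad) (a : Mac) (q : St) : act L.mir (mm a) (mq q) = mq (act L a q) := by
  obtain ⟨x, ρ⟩ := q
  cases a with
  | r μ =>
    have e : L.mir.h ρ (-x - 1) ↔ L.h ρ x := by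
      rw [mir_h]; have : (-(-x - 1) - 1 : ℤ) = x := by ring
      rw [this]
    have e2 : L.mir.v (-x - 1) ↔ L.v (x + 1) := by
      rw [mir_v]; have : (-(-x - 1) : ℤ) = x + 1 := by ring
      rw [this]
    have e3 : L.mir.v (-x) ↔ L.v x := by rw [mir_v, neg_neg]
    have e4 : -(x + 1) = -x - 1 := by ring
    by_cases h : L.h ρ x <;> by_cases hv : L.v (x + 1) <;> by_cases hv' : L.v x <;>
      simp [act, mm, mq, e, e2, e3, e4, h, hv, hv']
  | l μ =>
    have e : L.mir.h ρ (-x) ↔ L.h ρ (x - 1) := by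
      rw [mir_h]; have : (-(-x) - 1 : ℤ) = x - 1 := by ring
      rw [this]
    have e2 : L.mir.v (-x + 1) ↔ L.v (x - 1) := by
      rw [mir_v]; have : (-(-x + 1) : ℤ) = x - 1 := by ring
      rw [this]
    have e3 : L.mir.v (-x) ↔ L.v x := by rw [mir_v, neg_neg]
    have e4 : -(x - 1) = -x + 1 := by ring
    by_cases h : L.h ρ (x - 1) <;> by_cases hv : L.v (x - 1) <;> by_cases hv' : L.v x <;>
      simp [act, mm, mq, e, e2, e3, e4, h, hv, hv']
  | z μ =>
    have e3 : L.mir.v (-x) ↔ L.v x := by rw [mir_v, neg_neg]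
    by_cases hv' : L.v x <;> simp [act, mm, mq, e3, hv']

lemma run_mir (L : Lad) (w : List Mac) (q : St) :
    run L.mir (w.map mm) (mq q) = mq (run L w q) := by
  induction w generalizing q with
  | nil => rfl
  | cons a w ih => simp only [List.map_cons, run_cons]; rw [act_mir, ih]

lemma vis_mir (L : Lad) (s : ℤ) (δ : Bool) (w : List Mac) (q : St) :
    vis L.mir (-s) δ (w.map mm) (mq q) ↔ vis L s δ w q := by
  induction w generalizing q with
  | nil => simp
  | cons a w ih =>
    simp only [List.map_cons, vis_cons]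
    rw [act_mir, ih]
    simp [hit, mq, Lad.mir]

lemma adj_mir {L : Lad} {p q : St} (h : adj L p q) : adj L.mir (mq p) (mq q) := by
  rcases h with ⟨e, h | h⟩ | ⟨e, h1, h2⟩
  · refine Or.inl ⟨e, Or.inr ⟨by simp [mq, h.1], ?_⟩⟩
    simp only [mq, Lad.mir]
    rw [h.1]; convert h.2 using 1; ring
  · refine Or.inl ⟨e, Or.inl ⟨by simp [mq, h.1], ?_⟩⟩
    simp only [mq, Lad.mir]
    convert h.2 using 1; rw [h.1]; ring
  · exact Or.inr ⟨by simp [mq, e], h1, by simpa [mq, Lad.mir] using h2⟩

lemma C.mir {L : Lad} {r : ℤ} {n : ℕ} {q : St} (h : C L r n q) : C L.mir (-r) n (mq q) := by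
  induction h with
  | base n q h => exact C.base _ _ (by simp [mq, h])
  | step n p q h _ ih => exact C.step _ _ _ (adj_mir h) ih

end Pool.H79.Maze
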