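import Pool.Agent.H79.Maze.Sweep

namespace Pool.H79.Maze

open List

variable {L : Lad}

lemma act_l_le (μ : Bool) (q : St) :
    (act L (.l μ) q).1 ≤ q.1 ∧ q.1 ≤ (act L (.l μ) q).1 + 1 := by
  by_cases h : L.h q.2 (q.1 - 1) <;> simp [act, h]

lemma l_blocked_of_fix {μ : Bool} {q : St} (h : act L (.l μ) q = q) : ¬ L.h q.2 (q.1 - 1) := by
  intro ho
  have : (act L (.l μ) q).1 = q.1 - 1 := by simp [act, ho]
  rw [h] at this
  omega

lemma lrun2 {r : ℤ} {μ : Bool} (n : ℕ) : ∀ (q : St), (L.v q.1 → q.2 = μ) → q.1 ≤ r + n →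
    (run L (replicate n (.l μ)) q).1 ≤ r ∨
      act L (.l μ) (run L (replicate n (.l μ)) q) = run L (replicate n (.l μ)) q := by
  induction n with
  | zero => intro q _ h; left; simpa using h
  | succ n ih =>
    intro q hn h
    rw [replicate_succ, run_cons]
    by_cases ho : L.h q.2 (q.1 - 1)
    · have e : (act L (.l μ) q).1 = q.1 - 1 := by simp [act, ho]
      exact ih _ (act_norm_l μ q) (by push_cast at h; omega)
    · have e : act L (.l μ) q = q := by
        by_cases hvv : L.v q.1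
        · have := hn hvv
          ext
          · simp [act, ho]
          · simp only [act, ho, if_false, hvv, if_true]; exact this.symm
        · ext <;> simp [act, ho, hvv]
      right
      rw [e, run_fix e n]
      exact e

lemma lrun2' {r : ℤ} {μ : Bool} (n : ℕ) (q : St) (h : q.1 + 1 ≤ r + n) :
    (run L (replicate n (.l μ)) q).1 ≤ r ∨
      act L (.l μ) (run L (replicate n (.l μ)) q) = run L (replicate n (.l μ)) q := by
  rcases Nat.eq_zero_or_pos n with rfl | hn
  · left; simp at h ⊢; omega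
  obtain ⟨n, rfl⟩ : ∃ k, n = k + 1 := ⟨n - 1, by omega⟩
  rw [replicate_succ, run_cons]
  exact lrun2 n _ (act_norm_l μ q) (by have := (act_l_le (L := L) μ q).1; push_cast at h; omega)

/-- dead end on the left, right of the gate -/
def LT (L : Lad) (r : ℤ) (m : ℕ) (q : St) : Prop :=
  r < q.1 ∧ ¬ L.h q.2 (q.1 - 1) ∧ (∃ n, C L r n q) ∧ ∃ g0, L.v g0 ∧ q.1 ≤ g0 ∧ g0 ≤ r + m

def Vw (m M : ℕ) (μ : Bool) : List Mac :=
  .z μ :: (replicate m (.r μ) ++ replicate M (.l μ))

lemma Jrun {r : ℤ} {μ : Bool} (hv : L.v r) (n : ℕ) : ∀ (q : St),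
    (q.1 < r ∨ (r ≤ q.1 ∧ q.2 = μ ∧ ∀ c, r ≤ c → c < q.1 → L.h μ c)) →
    ((run L (replicate n (.r μ)) q).1 < r ∨ (r ≤ (run L (replicate n (.r μ)) q).1 ∧
      (run L (replicate n (.r μ)) q).2 = μ ∧
      ∀ c, r ≤ c → c < (run L (replicate n (.r μ)) q).1 → L.h μ c)) := by
  induction n with
  | zero => intro q h; exact h
  | succ n ih =>
    intro q h
    rw [replicate_succ, run_cons]
    apply ih
    rcases h with h | ⟨h1, h2, h3⟩
    · have h4 := act_r_le (L := L) μ q
      rcases lt_or_ge (act L (.r μ) q).1 r with h5 | h5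
      · exact Or.inl h5
      · have e : (act L (.r μ) q).1 = r := by omega
        exact Or.inr ⟨h5, act_norm_r μ q (by rw [e]; exact hv), fun c k1 k2 => by omega⟩
    · right
      have e : q = (q.1, μ) := Prod.ext rfl h2
      by_cases ho : L.h μ q.1
      · rw [e, act_r_same ho]
        refine ⟨by simp only; omega, rfl, fun c k1 k2 => ?_⟩
        simp only at k2
        rcases eq_or_lt_of_le (show c ≤ q.1 by omega) with k3 | k3
        · rw [k3]; exact ho
        · exact h3 c k1 k3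
      · have : act L (.r μ) q = q := by rw [e]; simp [act, ho]
        rw [this]
        exact ⟨h1, h2, h3⟩

lemma V_S {r : ℤ} {μ : Bool} (hv : L.v r) {m M : ℕ} (hM : m ≤ M) {q : St} (hq : q.1 ≤ r) :
    (run L (Vw m M μ) q).1 ≤ r := by
  rw [Vw, run_cons, run_append]
  have hz : ((act L (.z μ) q).1 < r ∨ (r ≤ (act L (.z μ) q).1 ∧ (act L (.z μ) q).2 = μ ∧
      ∀ c, r ≤ c → c < (act L (.z μ) q).1 → L.h μ c)) := by
    rcases lt_or_eq_of_le hq with h | h
    · left; simpa [act] using h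
    · right
      refine ⟨by simp [act, h], by simp [act, h, hv], fun c k1 k2 => ?_⟩
      simp only [act] at k2; omega
  have hJ := Jrun hv m _ hz
  have hle := (run_r_le (L := L) m μ (act L (.z μ) q)).2
  have e0 : (act L (.z μ) q).1 = q.1 := rfl
  set a := run L (replicate m (.r μ)) (act L (.z μ) q) with ha
  rcases hJ with h | ⟨h1, h2, h3⟩
  · have := (run_l_le (L := L) M μ a).1
    omega
  · have e : a = (a.1, μ) := Prod.ext rfl h2
    have e2 : M = (a.1 - r).toNat + (M - (a.1 - r).toNat) := by omega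
    rw [e2, replicate_add, run_append, e, l_rowrun _ a.1 μ μ (fun c k1 k2 => h3 c
      (by simp only at k1; omega) k2) (fun _ _ _ _ => rfl)]
    have := (run_l_le (L := L) (M - (a.1 - r).toNat) μ (a.1 - ((a.1 - r).toNat : ℤ), μ)).1
    simp only at this ⊢
    omega

lemma forth {x : ℤ} {δ : Bool} (hb : ¬ L.h δ (x - 1)) (a M : ℕ) (h : a ≤ M) :
    run L (replicate a (.r δ) ++ replicate M (.l δ)) (x, δ) = (x, δ) := by
  rw [run_append]
  obtain ⟨y, h1, h2, h3, h4⟩ := stayrow (L := L) a x δ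
  rw [h3]
  have e : M = (y - x).toNat + (M - (y - x).toNat) := by omega
  rw [e, replicate_add, run_append, l_rowrun _ y δ δ (fun c k1 k2 => h4 c (by omega) k2)
    (fun _ _ _ _ => rfl)]
  have e2 : y - ((y - x).toNat : ℤ) = x := by omega
  rw [e2]
  apply run_fix
  simp [act, hb]

lemma V_same {r : ℤ} {m M : ℕ} (hM : m ≤ M) {q : St} (hq : LT L r m q) :
    run L (Vw m M q.2) q = q := by
  have e : act L (.z q.2) q = q := by
    by_cases hv : L.v q.1 <;> simp [act, hv]
  rw [Vw, run_cons, e]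
  exact forth hq.2.1 m M hM

lemma V_diff {r : ℤ} {m M : ℕ} (hM : 2 * m + 2 ≤ M) {q : St} (hq : LT L r m q) :
    (run L (Vw m M (!q.2)) q).1 ≤ r ∨
      (LT L r m (run L (Vw m M (!q.2)) q) ∧ (run L (Vw m M (!q.2)) q).1 < q.1) := by
  obtain ⟨h1, h2, ⟨n, h3⟩, g0, h4, h5, h6⟩ := hq
  obtain ⟨g, g1, g2, g3, g4, g5, g6⟩ := l_tail h1 h2 h3
  have hgg : g ≤ g0 := by
    by_contra hc
    exact g4 g0 h5 (by omega) h4
  have hC' : C L r (n + 2 * (Vw m M (!q.2)).length) (run L (Vw m M (!q.2)) q) := h3.run _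
  -- arrive at the rung in row `!q.2`
  obtain ⟨i, hi⟩ : ∃ i : ℕ, g - q.1 = i := ⟨(g - q.1).toNat, by omega⟩
  have him : i ≤ m := by omega
  have w1 : run L (replicate i (.r (!q.2))) (act L (.z (!q.2)) q) = (g, !q.2) := by
    rcases Nat.eq_zero_or_pos i with e | e
    · subst e
      have e2 : q.1 = g := by push_cast at hi; omega
      simp [act, e2, g3]
    · obtain ⟨j, rfl⟩ : ∃ j, i = j + 1 := ⟨i - 1, by omega⟩
      have nv : ¬ L.v q.1 := g4 q.1 le_rfl (by omega)
      have ez : act L (.z (!q.2)) q = (q.1, q.2) := by simp [act, nv]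
      rw [ez, replicate_add, run_append, rowrun j q.1 q.2 (!q.2)
        (fun c k1 k2 => g5 c k1 (by push_cast at hi; omega))
        (fun c k1 k2 k3 => absurd k3 (g4 c (by omega) (by push_cast at hi; omega)))]
      have o : L.h q.2 (q.1 + j) := g5 _ (by omega) (by push_cast at hi; omega)
      have e5 : q.1 + j + 1 = g := by push_cast at hi; omega
      simp only [replicate_succ, replicate_zero, run_cons, run_nil, act]
      rw [if_pos o, e5, if_pos g3]
  obtain ⟨y, y1, y2, y3, y4⟩ := stayrow (L := L) (m - i) g (!q.2)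
  have w2 : run L (replicate m (.r (!q.2))) (act L (.z (!q.2)) q) = (y, !q.2) := by
    have e : m = i + (m - i) := by omega
    rw [e, replicate_add, run_append, w1]
    exact y3
  have w3 : run L (Vw m M (!q.2)) q = run L (replicate M (.l (!q.2))) (y, !q.2) := by
    rw [Vw, run_cons, run_append, w2]
  -- goes to column q.1 - 1
  have hcol : (run L (Vw m M (!q.2)) q).1 ≤ q.1 - 1 := by
    rw [w3]
    have e : M = (y - (q.1 - 1)).toNat + (M - (y - (q.1 - 1)).toNat) := by omega
    rw [e, replicate_add, run_append, l_rowrun _ y (!q.2) (!q.2)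
      (fun c k1 k2 => by
        rcases lt_or_ge c g with k3 | k3
        · exact g6 c (by omega) k3
        · exact y4 c k3 k2) (fun _ _ _ _ => rfl)]
    have := (run_l_le (L := L) (M - (y - (q.1 - 1)).toNat) (!q.2)
      (y - ((y - (q.1 - 1)).toNat : ℤ), !q.2)).1
    simp only at this
    omega
  rcases lrun2' (L := L) (r := r) (μ := !q.2) M (y, !q.2) (by simp only; push_cast; omega) with
    h7 | h7
  · left; rw [w3]; exact h7
  · rw [← w3] at h7
    have hbl := l_blocked_of_fix h7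
    rcases le_or_gt (run L (Vw m M (!q.2)) q).1 r with h8 | h8
    · exact Or.inl h8
    · exact Or.inr ⟨⟨h8, hbl, ⟨_, hC'⟩, g0, h4, by omega, h6⟩, by omega⟩

lemma pair {r : ℤ} (hv : L.v r) (δ : Bool) {m M : ℕ} (hM : 2 * m + 2 ≤ M) {q : St}
    (hq : LT L r m q) :
    (run L (Vw m M (!δ) ++ Vw m M δ) q).1 ≤ r ∨
      (LT L r m (run L (Vw m M (!δ) ++ Vw m M δ) q) ∧
        (run L (Vw m M (!δ) ++ Vw m M δ) q).1 < q.1) := by
  rw [run_append]
  by_cases hrow : q.2 = δ
  · have h1 := V_diff hM hq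
    rw [hrow] at h1
    rcases h1 with h1 | ⟨h1, h2⟩
    · left; exact V_S hv (by omega) h1
    · by_cases hrow2 : (run L (Vw m M (!δ)) q).2 = δ
      · have h3 := V_same (M := M) (by omega) h1
        rw [hrow2] at h3
        rw [h3]
        exact Or.inr ⟨h1, h2⟩
      · have h3 := V_diff hM h1
        rw [bool_ne hrow2, Bool.not_not] at h3
        rcases h3 with h3 | ⟨h3, h4⟩
        · exact Or.inl h3
        · exact Or.inr ⟨h3, by omega⟩
  · have hrow' := bool_ne hrow
    have h1 := V_same (M := M) (by omega) hq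
    rw [hrow'] at h1
    rw [h1]
    have h2 := V_diff hM hq
    rw [hrow', Bool.not_not] at h2
    exact h2

lemma pairs {r : ℤ} (hv : L.v r) (δ : Bool) {m M : ℕ} (hM : 2 * m + 2 ≤ M) (i : ℕ) :
    ∀ (q : St), (q.1 ≤ r ∨ LT L r m q) →
    ((run L (rep i (Vw m M (!δ) ++ Vw m M δ)) q).1 ≤ r ∨
      (LT L r m (run L (rep i (Vw m M (!δ) ++ Vw m M δ)) q) ∧
        (run L (rep i (Vw m M (!δ) ++ Vw m M δ)) q).1 + i ≤ q.1)) := by
  induction i with
  | zero =>
    intro q h
    rcases h with h | h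
    · exact Or.inl h
    · exact Or.inr ⟨h, by simp [rep]⟩
  | succ i ih =>
    intro q h
    rw [rep, run_append]
    have h1 : (run L (Vw m M (!δ) ++ Vw m M δ) q).1 ≤ r ∨
      (LT L r m (run L (Vw m M (!δ) ++ Vw m M δ) q) ∧
        (run L (Vw m M (!δ) ++ Vw m M δ) q).1 < q.1) := by
      rcases h with h | h
      · left
        rw [run_append]
        exact V_S hv (by omega) (V_S hv (by omega) h)
      · exact pair hv δ hM h
    rcases h1 with h1 | ⟨h1, h2⟩
    · rcases ih _ (Or.inl h1) with h3 | ⟨h3, h4⟩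
      · exact Or.inl h3
      · exfalso; have := h3.1; omega
    · rcases ih _ (Or.inr h1) with h3 | ⟨h3, h4⟩
      · exact Or.inl h3
      · exact Or.inr ⟨h3, by push_cast; omega⟩

/-- the left pass -/
def Pw (k : ℕ) (δ : Bool) : List Mac :=
  replicate (k + 1) (.l δ) ++
    (rep (4 * k + 3) (Vw (4 * k + 2) (8 * k + 6) (!δ) ++ Vw (4 * k + 2) (8 * k + 6) δ) ++ [.l δ])

theorem left_pass {r s : ℤ} {δ : Bool} (hr : r ≤ s) (hv : L.v r) {k : ℕ} (q : St)
    (hC : C L r k q) :
    vis L s δ (Pw k δ) q ∨ ((run L (Pw k δ) q).1 < r ∨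
      ((run L (Pw k δ) q).1 = r ∧ (run L (Pw k δ) q).2 = δ ∧ r < s)) := by
  have hd := hC.dist
  -- before the last letter
  have key : (run L (replicate (k + 1) (.l δ) ++ rep (4 * k + 3)
      (Vw (4 * k + 2) (8 * k + 6) (!δ) ++ Vw (4 * k + 2) (8 * k + 6) δ)) q).1 ≤ r := by
    rw [run_append]
    have h0 : (run L (replicate (k + 1) (.l δ)) q).1 ≤ r ∨
        LT L r (4 * k + 2) (run L (replicate (k + 1) (.l δ)) q) := by
      rcases lrun2' (L := L) (r := r) (μ := δ) (k + 1) q (by push_cast; omega) with h | h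
      · exact Or.inl h
      · rcases le_or_gt (run L (replicate (k + 1) (.l δ)) q).1 r with h8 | h8
        · exact Or.inl h8
        · right
          have hbl := l_blocked_of_fix h
          have hC1 : C L r (k + 2 * (k + 1)) (run L (replicate (k + 1) (.l δ)) q) := by
            have := hC.run (replicate (k + 1) (.l δ))
            rwa [length_replicate] at this
          obtain ⟨g, g1, g2, g3, -⟩ := l_tail (ρ := (run L (replicate (k + 1) (.l δ)) q).2)
            h8 hbl hC1
          have h9 := (run_l_le (L := L) (k + 1) δ q).1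
          exact ⟨h8, hbl, ⟨_, hC1⟩, g, g3, g1, by push_cast at g2 ⊢; omega⟩
    rcases pairs hv δ (m := 4 * k + 2) (M := 8 * k + 6) (by omega) (4 * k + 3) _ h0 with h1 | ⟨h1, h2⟩
    · exact h1
    · exfalso
      obtain ⟨h3, -, -, g0, -, h5, h6⟩ := h1
      rcases h0 with h0 | h0
      · push_cast at h2; omega
      · obtain ⟨-, -, -, g0', -, h5', h6'⟩ := h0
        push_cast at h2 h6'; omega
  have e : Pw k δ = (replicate (k + 1) (.l δ) ++ rep (4 * k + 3)
      (Vw (4 * k + 2) (8 * k + 6) (!δ) ++ Vw (4 * k + 2) (8 * k + 6) δ)) ++ [.l δ] := by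
    rw [Pw, append_assoc]
  rw [e, run_append, vis_append]
  set a := run L (replicate (k + 1) (.l δ) ++ rep (4 * k + 3)
      (Vw (4 * k + 2) (8 * k + 6) (!δ) ++ Vw (4 * k + 2) (8 * k + 6) δ)) q
  simp only [run_cons, run_nil, vis_cons, vis_nil, or_false]
  have h1 := (act_l_le (L := L) δ a).1
  have h2 := act_norm_l (L := L) δ a
  rcases lt_or_eq_of_le (show (act L (.l δ) a).1 ≤ r by omega) with h3 | h3
  · exact Or.inr (Or.inl h3)
  · have h4 := h2 (by rw [h3]; exact hv)
    rcases eq_or_lt_of_le hr with h5 | h5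
    · left; right
      exact ⟨by rw [h3, h5], Or.inl h4⟩
    · exact Or.inr (Or.inr ⟨h3, h4, h5⟩)

end Pool.H79.Maze
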