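import Pool.Agent.H79.Maze.Full

namespace Pool.H79.Maze

open List

/-- the four letters -/
inductive Dir
  | N | S | E | W

def Dir.vec : Dir → ℤ × ℤ
  | .N => (0, 1)
  | .S => (0, -1)
  | .E => (1, 0)
  | .W => (-1, 0)

open Classical in
/-- one step of the blind robot: it moves if the edge is present -/
noncomputable def step (M : SimpleGraph (ℤ × ℤ)) (I : Dir) (p : ℤ × ℤ) : ℤ × ℤ :=
  if M.Adj p (p + I.vec) then p + I.vec else p

/-- the position after `n` steps of the algorithm `A` -/
noncomputable def pos (M : SimpleGraph (ℤ × ℤ)) (A : ℕ → Dir) (o : ℤ × ℤ) : ℕ → ℤ × ℤ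
  | 0 => o
  | n + 1 => step M (A n) (pos M A o n)

/-- all edges are lattice edges -/
def IsBoard (M : SimpleGraph (ℤ × ℤ)) : Prop :=
  ∀ u v, M.Adj u v → |u.1 - v.1| + |u.2 - v.2| = 1

noncomputable def go (M : SimpleGraph (ℤ × ℤ)) : List Dir → ℤ × ℤ → ℤ × ℤ
  | [], p => p
  | a :: w, p => go M w (step M a p)

def sees (M : SimpleGraph (ℤ × ℤ)) (d : ℤ × ℤ) : List Dir → ℤ × ℤ → Prop
  | [], _ => False
  | a :: w, p => step M a p = d ∨ sees M d w (step M a p)

variable {M : SimpleGraph (ℤ × ℤ)}

lemma go_append (u w : List Dir) (p : ℤ × ℤ) : go M (u ++ w) p = go M w (go M u p) := by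
  induction u generalizing p with
  | nil => rfl
  | cons a u ih => simp [go, ih]

lemma sees_append (d : ℤ × ℤ) (u w : List Dir) (p : ℤ × ℤ) :
    sees M d (u ++ w) p ↔ sees M d u p ∨ sees M d w (go M u p) := by
  induction u generalizing p with
  | nil => simp [sees, go]
  | cons a u ih => simp [sees, go, ih, or_assoc]

lemma step_adj (I : Dir) (p : ℤ × ℤ) : step M I p = p ∨ M.Adj p (step M I p) := by
  unfold step
  split_ifs with h
  · exact Or.inr h
  · exact Or.inl rfl

/-- `d` is at distance at most `n` from `p` -/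
inductive Near (M : SimpleGraph (ℤ × ℤ)) (d : ℤ × ℤ) : ℕ → ℤ × ℤ → Prop
  | base : Near M d 0 d
  | step (n : ℕ) (p q : ℤ × ℤ) (h : M.Adj p q) (hq : Near M d n q) : Near M d (n + 1) p

lemma near_of_reachable {p d : ℤ × ℤ} (h : M.Reachable p d) : ∃ n, Near M d n p := by
  obtain ⟨c⟩ := h
  induction c with
  | nil => exact ⟨0, Near.base⟩
  | cons h _ ih =>
    obtain ⟨n, hn⟩ := ih
    exact ⟨n + 1, Near.step _ _ _ h hn⟩

lemma step_near {d p : ℤ × ℤ} {n : ℕ} (h : Near M d n p) (I : Dir) :
    Near M d n (step M I p) ∨ Near M d (n + 1) (step M I p) := by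
  rcases step_adj (M := M) I p with e | e
  · left; rw [e]; exact h
  · right; exact Near.step _ _ _ e.symm h

lemma go_near {d : ℤ × ℤ} (w : List Dir) : ∀ {p : ℤ × ℤ} {n : ℕ}, Near M d n p →
    ∃ m, m ≤ n + w.length ∧ Near M d m (go M w p) := by
  induction w with
  | nil => intro p n h; exact ⟨n, by simp, h⟩
  | cons a w ih =>
    intro p n h
    rcases step_near h a with e | e
    · obtain ⟨m, h1, h2⟩ := ih e
      exact ⟨m, by simp only [length_cons]; omega, h2⟩
    · obtain ⟨m, h1, h2⟩ := ih e
      exact ⟨m, by simp only [length_cons]; omega, h2⟩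

lemma go_reach (w : List Dir) : ∀ (p : ℤ × ℤ), M.Reachable p (go M w p) := by
  induction w with
  | nil => intro p; exact SimpleGraph.Reachable.refl _
  | cons a w ih =>
    intro p
    rcases step_adj (M := M) a p with h | h
    · have := ih p
      rw [go, h]; exact this
    · exact h.reachable.trans (ih _)

/-- a class of pointed boards is finitely solvable if for each `k` a finite word finds every
destination at distance at most `k` -/
def FinSolv (P : SimpleGraph (ℤ × ℤ) → ℤ × ℤ → Prop) : Prop :=
  ∀ k : ℕ, ∃ w : List Dir, ∀ (M : SimpleGraph (ℤ × ℤ)) (o d : ℤ × ℤ), IsBoard M → P M o →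
    ∀ n ≤ k, Near M d n o → o ≠ d → sees M d w o

lemma not_sees_ne {d : ℤ × ℤ} (w : List Dir) : ∀ {p : ℤ × ℤ}, p ≠ d → ¬ sees M d w p →
    go M w p ≠ d := by
  induction w with
  | nil => intro p h _; exact h
  | cons a w ih =>
    intro p h hs
    rw [sees, not_or] at hs
    exact ih hs.1 hs.2

lemma FinSolv.or {P Q : SimpleGraph (ℤ × ℤ) → ℤ × ℤ → Prop} (hP : FinSolv P) (hQ : FinSolv Q)
    (hi : ∀ M p q, Q M p → M.Reachable p q → Q M q) : FinSolv (fun M p => P M p ∨ Q M p) := by
  intro k
  obtain ⟨w, hw⟩ := hP k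
  obtain ⟨w', hw'⟩ := hQ (k + w.length)
  refine ⟨w ++ w', fun M o d hM h n hn hnear hod => ?_⟩
  rw [sees_append]
  by_cases hs : sees M d w o
  · exact Or.inl hs
  rcases h with h | h
  · exact absurd (hw M o d hM h n hn hnear hod) hs
  · right
    obtain ⟨m, h1, h2⟩ := go_near w hnear
    exact hw' M _ d hM (hi _ _ _ h (go_reach w o)) m (by omega) h2 (not_sees_ne w hod hs)

/-- finitely solvable classes are solvable by one infinite algorithm -/
theorem FinSolv.solvable {P : SimpleGraph (ℤ × ℤ) → ℤ × ℤ → Prop} (hP : FinSolv P)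
    (hi : ∀ M p q, P M p → M.Reachable p q → P M q) :
    ∃ A : ℕ → Dir, ∀ M : SimpleGraph (ℤ × ℤ), IsBoard M → ∀ o d, M.Reachable o d → P M o →
      ∃ n, pos M A o n = d := by
  choose w hw using hP
  let W : ℕ → List Dir := fun n => Nat.rec [] (fun n u => u ++ (w (n + u.length) ++ [Dir.N])) n
  have W0 : W 0 = [] := rfl
  have W1 : ∀ n, W (n + 1) = W n ++ (w (n + (W n).length) ++ [Dir.N]) := fun n => rfl
  have hlen : ∀ n, n ≤ (W n).length := by
    intro n
    induction n with
    | zero => simp
    | succ n ih => rw [W1]; simp only [length_append, length_singleton]; omega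
  have hpre : ∀ n m, n ≤ m → W n <+: W m := by
    intro n m h
    induction h with
    | refl => exact List.prefix_refl _
    | step _ ih => rw [W1]; exact ih.trans (List.prefix_append _ _)
  let A : ℕ → Dir := fun i => (W (i + 1)).getD i Dir.N
  have hA : ∀ n i, i < (W n).length → A i = (W n).getD i Dir.N := by
    intro n i hin
    have hi1 : i < (W (i + 1)).length := hlen (i + 1)
    have key : ∀ a b, a ≤ b → i < (W a).length → (W b).getD i Dir.N = (W a).getD i Dir.N := by
      intro a b hab hia
      obtain ⟨t, ht⟩ := hpre a b hab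
      rw [← ht, List.getD_append _ _ _ _ hia]
    rcases le_total (i + 1) n with h | h
    · exact (key _ _ h hi1).symm
    · exact key _ _ h hin
  -- positions
  have hpos : ∀ (M : SimpleGraph (ℤ × ℤ)) (o d : ℤ × ℤ) (u : List Dir) (k : ℕ) ,
      (∀ i, i < u.length → A (k + i) = u.getD i Dir.N) →
      (sees M d u (pos M A o k) → ∃ n, pos M A o n = d) := by
    intro M o d u
    induction u with
    | nil => intro k _ h; exact absurd h (by simp [sees])
    | cons a u ih =>
      intro k hk hs
      have e : step M a (pos M A o k) = pos M A o (k + 1) := by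
        have := hk 0 (by simp)
        simp only [add_zero, List.getD_cons_zero] at this
        rw [pos, this]
      rw [sees, e] at hs
      rcases hs with hs | hs
      · exact ⟨k + 1, hs⟩
      · apply ih (k + 1) _ hs
        intro i hi
        have := hk (i + 1) (by simp only [length_cons]; omega)
        rw [List.getD_cons_succ] at this
        have e2 : k + 1 + i = k + (i + 1) := by ring
        rw [e2]; exact this
  refine ⟨A, fun M hM o d hr hPo => ?_⟩
  by_cases hod : o = d
  · exact ⟨0, hod⟩
  obtain ⟨k, hk⟩ := near_of_reachable hr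
  have hs : sees M d (W (k + 1)) o := by
    rw [W1, sees_append, sees_append]
    by_cases h0 : sees M d (W k) o
    · exact Or.inl h0
    · right; left
      obtain ⟨m, h1, h2⟩ := go_near (W k) hk
      exact hw _ M _ d hM (hi _ _ _ hPo (go_reach _ o)) m h1 h2 (not_sees_ne _ hod h0)
  apply hpos M o d (W (k + 1)) 0 _ hs
  intro i hi'
  rw [zero_add]
  exact hA (k + 1) i hi'

end Pool.H79.Maze
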