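import Pool.Agent.H79.Maze.Real

namespace Pool.H79.Maze

open List

variable {M : SimpleGraph (ℤ × ℤ)}

/-- the component of `o` lies in two adjacent rows -/
def TwoRows (M : SimpleGraph (ℤ × ℤ)) (o : ℤ × ℤ) : Prop :=
  ∃ y : ℤ, ∀ v, M.Reachable o v → v.2 = y ∨ v.2 = y + 1

/-- the component of `o` lies in two adjacent columns -/
def TwoCols (M : SimpleGraph (ℤ × ℤ)) (o : ℤ × ℤ) : Prop :=
  ∃ x : ℤ, ∀ v, M.Reachable o v → v.1 = x ∨ v.1 = x + 1

def emb (y : ℤ) (q : St) : ℤ × ℤ := (q.1, if q.2 then y + 1 else y)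

def lad (M : SimpleGraph (ℤ × ℤ)) (y : ℤ) : Lad where
  h ρ x := M.Adj (emb y (x, ρ)) (emb y (x + 1, ρ))
  v x := M.Adj (x, y) (x, y + 1)

def In2 (M : SimpleGraph (ℤ × ℤ)) (y : ℤ) (p : ℤ × ℤ) : Prop :=
  ∀ v, M.Reachable p v → v.2 = y ∨ v.2 = y + 1

lemma In2.step {y : ℤ} {p : ℤ × ℤ} (h : In2 M y p) (I : Dir) : In2 M y (step M I p) := by
  intro v hv
  apply h
  rcases step_adj (M := M) I p with e | e
  · rwa [e] at hv
  · exact e.reachable.trans hv

open Classical in
lemma stepE (y x : ℤ) (ρ : Bool) :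
    Pool.H79.Maze.step M .E (emb y (x, ρ)) =
      if (lad M y).h ρ x then emb y (x + 1, ρ) else emb y (x, ρ) := by
  have e : emb y (x, ρ) + Dir.E.vec = emb y (x + 1, ρ) := by
    simp [emb, Dir.vec]
  unfold Pool.H79.Maze.step
  rw [e]; rfl

open Classical in
lemma stepW (y x : ℤ) (ρ : Bool) :
    Pool.H79.Maze.step M .W (emb y (x, ρ)) =
      if (lad M y).h ρ (x - 1) then emb y (x - 1, ρ) else emb y (x, ρ) := by
  have e : emb y (x, ρ) + Dir.W.vec = emb y (x - 1, ρ) := by
    simp [emb, Dir.vec, sub_eq_add_neg]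
  have e2 : (lad M y).h ρ (x - 1) ↔ M.Adj (emb y (x, ρ)) (emb y (x - 1, ρ)) := by
    simp only [lad, sub_add_cancel]
    exact M.adj_comm _ _
  unfold Pool.H79.Maze.step
  rw [e]
  by_cases h : M.Adj (emb y (x, ρ)) (emb y (x - 1, ρ))
  · rw [if_pos h, if_pos (e2.2 h)]
  · rw [if_neg h, if_neg (fun h' => h (e2.1 h'))]

open Classical in
lemma stepN {y x : ℤ} {ρ : Bool} (h2 : In2 M y (emb y (x, ρ))) :
    Pool.H79.Maze.step M .N (emb y (x, ρ)) =
      if (lad M y).v x then emb y (x, true) else emb y (x, ρ) := by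
  cases ρ with
  | false =>
    have e : emb y (x, false) + Dir.N.vec = emb y (x, true) := by simp [emb, Dir.vec]
    unfold Pool.H79.Maze.step
    rw [e]
    have e2 : (lad M y).v x ↔ M.Adj (emb y (x, false)) (emb y (x, true)) := by
      simp [lad, emb]
    by_cases h : M.Adj (emb y (x, false)) (emb y (x, true))
    · rw [if_pos h, if_pos (e2.2 h)]
    · rw [if_neg h, if_neg (fun h' => h (e2.1 h'))]
  | true =>
    have hn : ¬ M.Adj (emb y (x, true)) (emb y (x, true) + Dir.N.vec) := by
      intro h
      have := h2 _ h.reachable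
      simp only [emb, Dir.vec, if_true, Prod.snd_add] at this
      omega
    unfold Pool.H79.Maze.step
    rw [if_neg hn]
    split_ifs <;> rfl

open Classical in
lemma stepS {y x : ℤ} {ρ : Bool} (h2 : In2 M y (emb y (x, ρ))) :
    Pool.H79.Maze.step M .S (emb y (x, ρ)) =
      if (lad M y).v x then emb y (x, false) else emb y (x, ρ) := by
  cases ρ with
  | true =>
    have e : emb y (x, true) + Dir.S.vec = emb y (x, false) := by simp [emb, Dir.vec]
    unfold Pool.H79.Maze.step
    rw [e]
    have e2 : (lad M y).v x ↔ M.Adj (emb y (x, true)) (emb y (x, false)) := by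
      simp [lad, emb, M.adj_comm]
    by_cases h : M.Adj (emb y (x, true)) (emb y (x, false))
    · rw [if_pos h, if_pos (e2.2 h)]
    · rw [if_neg h, if_neg (fun h' => h (e2.1 h'))]
  | false =>
    have hn : ¬ M.Adj (emb y (x, false)) (emb y (x, false) + Dir.S.vec) := by
      intro h
      have := h2 _ h.reachable
      simp [emb, Dir.vec] at this
    unfold Pool.H79.Maze.step
    rw [if_neg hn]
    split_ifs <;> rfl

def ver (μ : Bool) : List Dir := if μ then [.S, .N] else [.N, .S]

def ex : Mac → List Dir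
  | .r μ => .E :: ver μ
  | .l μ => .W :: ver μ
  | .z μ => ver μ

open Classical in
lemma ver_go {y x : ℤ} {ρ : Bool} (μ : Bool) (h2 : In2 M y (emb y (x, ρ))) :
    go M (ver μ) (emb y (x, ρ)) = emb y (x, if (lad M y).v x then μ else ρ) := by
  cases μ with
  | false =>
    have hN := h2.step .N
    simp only [ver, Bool.false_eq_true, if_false, go]
    rw [stepN h2] at hN ⊢
    by_cases hv : (lad M y).v x
    · rw [if_pos hv] at hN ⊢
      rw [stepS hN, if_pos hv, if_pos hv]
    · rw [if_neg hv] at hN ⊢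
      rw [stepS hN, if_neg hv, if_neg hv]
  | true =>
    have hN := h2.step .S
    simp only [ver, if_true, go]
    rw [stepS h2] at hN ⊢
    by_cases hv : (lad M y).v x
    · rw [if_pos hv] at hN ⊢
      rw [stepN hN, if_pos hv, if_pos hv]
    · rw [if_neg hv] at hN ⊢
      rw [stepN hN, if_neg hv, if_neg hv]

lemma ver_sees {y x : ℤ} {ρ : Bool} (μ δ : Bool) (h2 : In2 M y (emb y (x, ρ)))
    (hv : (lad M y).v x) : sees M (emb y (x, δ)) (ver μ) (emb y (x, ρ)) := by
  cases μ with
  | false =>
    have hN := h2.step .N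
    simp only [ver, Bool.false_eq_true, if_false, sees]
    rw [stepN h2, if_pos hv] at hN ⊢
    rw [stepS hN, if_pos hv]
    cases δ <;> simp
  | true =>
    have hN := h2.step .S
    simp only [ver, if_true, sees]
    rw [stepS h2, if_pos hv] at hN ⊢
    rw [stepN hN, if_pos hv]
    cases δ <;> simp

lemma sees_go {w : List Dir} (hw : w ≠ []) : ∀ (p : ℤ × ℤ), sees M (go M w p) w p := by
  induction w with
  | nil => exact absurd rfl hw
  | cons a w ih =>
    intro p
    by_cases h : w = []
    · subst h; left; rfl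
    · right; exact ih h _

lemma ver_ne (μ : Bool) : ver μ ≠ [] := by cases μ <;> simp [ver]

lemma go_In2 {y : ℤ} {p : ℤ × ℤ} (w : List Dir) (h : In2 M y p) : In2 M y (go M w p) := by
  intro v hv
  exact h v ((go_reach w p).trans hv)

lemma sim_go {y : ℤ} (a : Mac) (q : St) (h2 : In2 M y (emb y q)) :
    go M (ex a) (emb y q) = emb y (act (lad M y) a q) := by
  obtain ⟨x, ρ⟩ := q
  cases a with
  | r μ =>
    have hE := h2.step .E
    simp only [ex, go, act]
    rw [stepE] at hE ⊢
    by_cases h : (lad M y).h ρ x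
    · rw [if_pos h] at hE ⊢
      rw [if_pos h, ver_go μ hE]
    · rw [if_neg h] at hE ⊢
      rw [if_neg h, ver_go μ hE]
  | l μ =>
    have hE := h2.step .W
    simp only [ex, go, act]
    rw [stepW] at hE ⊢
    by_cases h : (lad M y).h ρ (x - 1)
    · rw [if_pos h] at hE ⊢
      rw [if_pos h, ver_go μ hE]
    · rw [if_neg h] at hE ⊢
      rw [if_neg h, ver_go μ hE]
  | z μ =>
    simp only [ex, act]
    exact ver_go μ h2

lemma ex_ne (a : Mac) : ex a ≠ [] := by cases a <;> simp [ex, ver_ne]

lemma sim_sees {y s : ℤ} {δ : Bool} (a : Mac) (q : St) (h2 : In2 M y (emb y q))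
    (hh : hit (lad M y) s δ (act (lad M y) a q)) :
    sees M (emb y (s, δ)) (ex a) (emb y q) := by
  obtain ⟨h1, h3 | h3⟩ := hh
  · have e : emb y (s, δ) = go M (ex a) (emb y q) := by
      rw [sim_go a q h2]
      congr 1
      exact Prod.ext h1.symm h3.symm
    rw [e]
    exact sees_go (ex_ne a) _
  · obtain ⟨x, ρ⟩ := q
    cases a with
    | r μ =>
      have hE := h2.step .E
      simp only [ex, sees]
      rw [stepE] at hE ⊢
      by_cases h : (lad M y).h ρ x
      · simp only [act, h, if_true] at h1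
        rw [if_pos h] at hE ⊢
        right
        rw [← h1] at h3 ⊢
        exact ver_sees μ δ hE h3
      · simp only [act, h, if_false] at h1
        rw [if_neg h] at hE ⊢
        right
        rw [← h1] at h3 ⊢
        exact ver_sees μ δ hE h3
    | l μ =>
      have hE := h2.step .W
      simp only [ex, sees]
      rw [stepW] at hE ⊢
      by_cases h : (lad M y).h ρ (x - 1)
      · simp only [act, h, if_true] at h1
        rw [if_pos h] at hE ⊢
        right
        rw [← h1] at h3 ⊢
        exact ver_sees μ δ hE h3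
      · simp only [act, h, if_false] at h1
        rw [if_neg h] at hE ⊢
        right
        rw [← h1] at h3 ⊢
        exact ver_sees μ δ hE h3
    | z μ =>
      simp only [act] at h1
      simp only [ex]
      rw [← h1] at h3 ⊢
      exact ver_sees μ δ h2 h3

lemma sim {y s : ℤ} {δ : Bool} (w : List Mac) : ∀ (q : St), In2 M y (emb y q) →
    vis (lad M y) s δ w q → sees M (emb y (s, δ)) (w.flatMap ex) (emb y q) := by
  induction w with
  | nil => intro q _ h; exact absurd h (by simp)
  | cons a w ih =>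
    intro q h2 hv
    rw [flatMap_cons, sees_append, sim_go a q h2]
    rcases hv with hv | hv
    · exact Or.inl (sim_sees a q h2 hv)
    · right
      apply ih _ _ hv
      rw [← sim_go a q h2]
      exact go_In2 _ h2

open Classical in
/-- the ladder coordinates -/
noncomputable def un (y : ℤ) (p : ℤ × ℤ) : St := (p.1, decide (p.2 = y + 1))

lemma emb_un {y : ℤ} {p : ℤ × ℤ} (h : p.2 = y ∨ p.2 = y + 1) : emb y (un y p) = p := by
  obtain ⟨x, z⟩ := p
  simp only at h
  rcases h with h | h
  · subst h; simp [emb, un]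
  · subst h; simp [emb, un]

lemma adj_un {y : ℤ} (hM : IsBoard M) {p q : ℤ × ℤ} (hp : p.2 = y ∨ p.2 = y + 1)
    (hq : q.2 = y ∨ q.2 = y + 1) (h : M.Adj p q) : adj (lad M y) (un y p) (un y q) := by
  have h1 := hM p q h
  obtain ⟨a, b⟩ := p
  obtain ⟨c, d⟩ := q
  simp only at hp hq h1
  by_cases hbd : b = d
  · subst hbd
    simp only [sub_self, abs_zero, add_zero] at h1
    left
    refine ⟨rfl, ?_⟩
    have he : ∀ t : ℤ, emb y (t, decide (b = y + 1)) = (t, b) := by
      intro t
      rcases hp with hp | hp <;> subst hp <;> simp [emb]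
    rcases (abs_eq (by norm_num : (0 : ℤ) ≤ 1)).1 h1 with h2 | h2
    · right
      refine ⟨by simp only [un]; omega, ?_⟩
      simp only [un, lad]
      rw [he, he]
      have : c + 1 = a := by omega
      rw [this]; exact h.symm
    · left
      refine ⟨by simp only [un]; omega, ?_⟩
      simp only [un, lad]
      rw [he, he]
      have : a + 1 = c := by omega
      rw [this]; exact h
  · right
    have hac : a = c := by
      have : |b - d| = 1 := by
        rcases hp with hp | hp <;> rcases hq with hq | hq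
        · omega
        · rw [hp, hq]; norm_num
        · rw [hp, hq]; norm_num
        · omega
      rw [this] at h1
      have : |a - c| = 0 := by omega
      have := abs_eq_zero.1 this
      omega
    subst hac
    refine ⟨rfl, ?_, ?_⟩
    · simp only [un]
      rcases hp with hp | hp <;> rcases hq with hq | hq
      · omega
      · simp [hp, hq]
      · simp [hp, hq]
      · omega
    · simp only [un, lad]
      rcases hp with hp | hp <;> rcases hq with hq | hq
      · omega
      · rw [hp, hq] at h; exact h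
      · rw [hp, hq] at h; exact h.symm
      · omega

lemma near_ch {y : ℤ} (hM : IsBoard M) {d : ℤ × ℤ} {n : ℕ} {p : ℤ × ℤ} (h : Near M d n p) :
    In2 M y p → Ch (lad M y) (un y d) n (un y p) := by
  induction h with
  | base => intro _; exact Ch.base
  | step n p q hpq _ ih =>
    intro h2
    have hq2 : In2 M y q := fun v hv => h2 v (hpq.reachable.trans hv)
    exact Ch.step _ _ _ (adj_un hM (h2 p (SimpleGraph.Reachable.refl _))
      (hq2 q (SimpleGraph.Reachable.refl _)) hpq) (ih hq2)

theorem rows_finSolv : FinSolv TwoRows := by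
  intro k
  obtain ⟨w, hw⟩ := exists_full k
  refine ⟨w.flatMap ex, fun M o d hM hP n hn hnear hod => ?_⟩
  obtain ⟨y, hy⟩ := hP
  have ho : o.2 = y ∨ o.2 = y + 1 := hy o (SimpleGraph.Reachable.refl _)
  have hd : d.2 = y ∨ d.2 = y + 1 := by
    apply hy
    have : ∀ {m : ℕ} {p : ℤ × ℤ}, Near M d m p → M.Reachable p d := by
      intro m p h
      induction h with
      | base => exact SimpleGraph.Reachable.refl _
      | step n p q hpq _ ih => exact hpq.reachable.trans ih
    exact this hnear
  have e1 := emb_un ho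
  have e2 := emb_un hd
  have hch := near_ch (y := y) hM hnear hy
  have hne : un y o ≠ un y d := by
    intro h
    apply hod
    rw [← e1, ← e2, h]
  have h2 : In2 M y (emb y (un y o)) := by rw [e1]; exact hy
  have := sim w (un y o) h2 (hw (lad M y) (un y d).1 (un y d).2 (un y o) n hn hch hne)
  rw [e1] at this
  have e3 : emb y ((un y d).1, (un y d).2) = d := e2
  rw [e3] at this
  exact this

lemma TwoRows.inv (M : SimpleGraph (ℤ × ℤ)) (p q : ℤ × ℤ) (h : TwoRows M p)
    (hr : M.Reachable p q) : TwoRows M q := by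
  obtain ⟨y, hy⟩ := h
  exact ⟨y, fun v hv => hy v (hr.trans hv)⟩

lemma TwoCols.inv (M : SimpleGraph (ℤ × ℤ)) (p q : ℤ × ℤ) (h : TwoCols M p)
    (hr : M.Reachable p q) : TwoCols M q := by
  obtain ⟨y, hy⟩ := h
  exact ⟨y, fun v hv => hy v (hr.trans hv)⟩

/-! ### transposition -/

def sw : Dir → Dir
  | .N => .E
  | .S => .W
  | .E => .N
  | .W => .S

lemma sw_vec (I : Dir) : (sw I).vec = I.vec.swap := by cases I <;> rfl

def tr (M : SimpleGraph (ℤ × ℤ)) : SimpleGraph (ℤ × ℤ) := M.comap Prod.swap

lemma tr_adj (a b : ℤ × ℤ) : (tr M).Adj a b ↔ M.Adj a.swap b.swap := Iff.rfl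

lemma tr_step (I : Dir) (p : ℤ × ℤ) :
    Pool.H79.Maze.step (tr M) (sw I) p.swap = (Pool.H79.Maze.step M I p).swap := by
  have e : p.swap + (sw I).vec = (p + I.vec).swap := by
    rw [sw_vec]; rfl
  unfold Pool.H79.Maze.step
  rw [e]
  have e2 : (tr M).Adj p.swap (p + I.vec).swap ↔ M.Adj p (p + I.vec) := by
    rw [tr_adj, Prod.swap_swap, Prod.swap_swap]
  by_cases h : M.Adj p (p + I.vec)
  · rw [if_pos h, if_pos (e2.2 h)]
  · rw [if_neg h, if_neg (fun h' => h (e2.1 h'))]

lemma sw_sw (I : Dir) : sw (sw I) = I := by cases I <;> rfl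

lemma tr_sees (d : ℤ × ℤ) (w : List Dir) : ∀ (p : ℤ × ℤ),
    sees (tr M) d.swap w p.swap → sees M d (w.map sw) p := by
  induction w with
  | nil => intro p h; exact h
  | cons a w ih =>
    intro p h
    have e := tr_step (M := M) (sw a) p
    rw [sw_sw] at e
    rw [sees, e] at h
    rw [map_cons, sees]
    rcases h with h | h
    · left
      have := congrArg Prod.swap h
      rwa [Prod.swap_swap, Prod.swap_swap] at this
    · right
      exact ih _ h

lemma tr_near {d p : ℤ × ℤ} {n : ℕ} (h : Near M d n p) : Near (tr M) d.swap n p.swap := by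
  induction h with
  | base => exact Near.base
  | step n p q hpq _ ih =>
    refine Near.step _ _ _ ?_ ih
    rw [tr_adj, Prod.swap_swap, Prod.swap_swap]; exact hpq

lemma tr_reach {p q : ℤ × ℤ} (h : (tr M).Reachable p q) : M.Reachable p.swap q.swap := by
  obtain ⟨c⟩ := h
  induction c with
  | nil => exact SimpleGraph.Reachable.refl _
  | cons h _ ih => exact ((tr_adj _ _).1 h).reachable.trans ih

theorem cols_finSolv : FinSolv TwoCols := by
  intro k
  obtain ⟨w, hw⟩ := rows_finSolv k
  refine ⟨w.map sw, fun M o d hM hP n hn hnear hod => ?_⟩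
  apply tr_sees
  apply hw (tr M) o.swap d.swap _ _ n hn (tr_near hnear)
  · intro h
    apply hod
    have := congrArg Prod.swap h
    rwa [Prod.swap_swap, Prod.swap_swap] at this
  · intro u v h
    have := hM _ _ ((tr_adj u v).1 h)
    simp only [Prod.fst_swap, Prod.snd_swap] at this
    rw [add_comm]; exact this
  · obtain ⟨x, hx⟩ := hP
    refine ⟨x, fun v hv => ?_⟩
    have := tr_reach hv
    rw [Prod.swap_swap] at this
    exact hx _ this

theorem main : ∃ A : ℕ → Dir, ∀ M : SimpleGraph (ℤ × ℤ), IsBoard M → ∀ o d, M.Reachable o d →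
    (TwoRows M o ∨ TwoCols M o) → ∃ n, pos M A o n = d := by
  have h := rows_finSolv.or cols_finSolv TwoCols.inv
  apply h.solvable
  intro M p q hp hr
  rcases hp with hp | hp
  · exact Or.inl (hp.inv _ _ _ hr)
  · exact Or.inr (hp.inv _ _ _ hr)

end Pool.H79.Maze
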