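import Pool.Agent.H79.Maze.Ladder

namespace Pool.H79.Maze

open List

variable {L : Lad}

lemma bool_ne {a b : Bool} (h : a ≠ b) : a = !b := by
  cases a <;> cases b <;> simp at h ⊢

lemma act_r_same {x : ℤ} {μ : Bool} (h : L.h μ x) : act L (.r μ) (x, μ) = (x + 1, μ) := by
  simp [act, h]

lemma act_r_nv {x : ℤ} {μ ρ : Bool} (h : L.h ρ x) (hv : ¬ L.v (x + 1)) :
    act L (.r μ) (x, ρ) = (x + 1, ρ) := by
  simp [act, h, hv]

lemma act_r_v {x : ℤ} {μ ρ : Bool} (h : L.h ρ x) (hv : L.v (x + 1)) :
    act L (.r μ) (x, ρ) = (x + 1, μ) := by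
  simp [act, h, hv]

lemma act_r_le (μ : Bool) (q : St) :
    q.1 ≤ (act L (.r μ) q).1 ∧ (act L (.r μ) q).1 ≤ q.1 + 1 := by
  by_cases h : L.h q.2 q.1 <;> simp [act, h]

lemma act_norm_r (μ : Bool) (q : St) (h : L.v (act L (.r μ) q).1) : (act L (.r μ) q).2 = μ := by
  by_cases h1 : L.h q.2 q.1
  · simp only [act, h1, if_true] at h ⊢
    simp [h]
  · simp only [act, h1, if_false] at h ⊢
    simp [h]

lemma act_norm_l (μ : Bool) (q : St) (h : L.v (act L (.l μ) q).1) : (act L (.l μ) q).2 = μ := by
  by_cases h1 : L.h q.2 (q.1 - 1)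
  · simp only [act, h1, if_true] at h ⊢
    simp [h]
  · simp only [act, h1, if_false] at h ⊢
    simp [h]

/-- free run along a row -/
lemma rowrun (n : ℕ) : ∀ (x : ℤ) (ρ μ : Bool) (_ : ∀ c, x ≤ c → c < x + n → L.h ρ c)
    (_ : ∀ c, x < c → c ≤ x + n → L.v c → μ = ρ),
    run L (replicate n (.r μ)) (x, ρ) = (x + n, ρ) := by
  induction n with
  | zero => intro x ρ μ _ _; simp
  | succ n ih =>
    intro x ρ μ h hv
    have h0 : L.h ρ x := h x le_rfl (by push_cast; omega)
    have e : act L (.r μ) (x, ρ) = (x + 1, ρ) := by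
      by_cases hh : L.v (x + 1)
      · have := hv (x + 1) (by omega) (by push_cast; omega) hh
        subst this
        exact act_r_same h0
      · exact act_r_nv h0 hh
    rw [replicate_succ, run_cons, e, ih (x + 1) ρ μ]
    · ext
      · push_cast; ring
      · rfl
    · intro c h1 h2; exact h c (by omega) (by push_cast; omega)
    · intro c h1 h2; exact hv c (by omega) (by push_cast; omega)

lemma run_r_le (n : ℕ) : ∀ (μ : Bool) (q : St),
    q.1 ≤ (run L (replicate n (.r μ)) q).1 ∧ (run L (replicate n (.r μ)) q).1 ≤ q.1 + n := by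
  induction n with
  | zero => intro μ q; simp
  | succ n ih =>
    intro μ q
    rw [replicate_succ, run_cons]
    have h1 := ih μ (act L (.r μ) q)
    have h2 := act_r_le (L := L) μ q
    push_cast
    omega

lemma run_fix {a : Mac} {q : St} (h : act L a q = q) (n : ℕ) :
    run L (replicate n a) q = q := by
  induction n with
  | zero => rfl
  | succ n ih => rw [replicate_succ, run_cons, h, ih]

lemma run_l_eq (n : ℕ) (μ : Bool) (q : St) :
    run L (replicate n (.l μ)) q = mq (run L.mir (replicate n (.r μ)) (mq q)) := by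
  have := run_mir L.mir (replicate n (.r μ)) (mq q)
  rw [mir_mir, mq_mq] at this
  rw [← this]
  simp [mm]

lemma l_rowrun (n : ℕ) (x : ℤ) (ρ μ : Bool) (h : ∀ c, x - n ≤ c → c < x → L.h ρ c)
    (hv : ∀ c, x - n ≤ c → c < x → L.v c → μ = ρ) :
    run L (replicate n (.l μ)) (x, ρ) = (x - n, ρ) := by
  rw [run_l_eq]
  have := rowrun (L := L.mir) n (-x) ρ μ (fun c h1 h2 => by
    rw [mir_h]; exact h _ (by omega) (by omega)) (fun c h1 h2 h3 => by
    rw [mir_v] at h3; exact hv _ (by omega) (by omega) h3)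
  simp only [mq]
  rw [this]
  ext
  · simp; ring
  · rfl

lemma run_l_le (n : ℕ) (μ : Bool) (q : St) :
    (run L (replicate n (.l μ)) q).1 ≤ q.1 ∧ q.1 ≤ (run L (replicate n (.l μ)) q).1 + n := by
  rw [run_l_eq]
  have := run_r_le (L := L.mir) n μ (mq q)
  simp only [mq] at this ⊢
  omega

/-- a run in the mode of the row stays in the row -/
lemma stayrow (n : ℕ) : ∀ (x : ℤ) (μ : Bool), ∃ y, x ≤ y ∧ y ≤ x + n ∧
    run L (replicate n (.r μ)) (x, μ) = (y, μ) ∧ ∀ c, x ≤ c → c < y → L.h μ c := by
  induction n with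
  | zero => intro x μ; exact ⟨x, le_rfl, by simp, rfl, fun c h1 h2 => by omega⟩
  | succ n ih =>
    intro x μ
    by_cases h : L.h μ x
    · obtain ⟨y, h1, h2, h3, h4⟩ := ih (x + 1) μ
      refine ⟨y, by omega, by push_cast; omega, ?_, ?_⟩
      · rw [replicate_succ, run_cons, act_r_same h, h3]
      · intro c h5 h6
        rcases eq_or_lt_of_le h5 with e | e
        · rw [← e]; exact h
        · exact h4 c (by omega) h6
    · have e : act L (.r μ) (x, μ) = (x, μ) := by simp [act, h]
      exact ⟨x, le_rfl, by push_cast; omega, run_fix e _, fun c h1 h2 => by omega⟩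

lemma l_stayrow (n : ℕ) (x : ℤ) (μ : Bool) : ∃ y, y ≤ x ∧ x ≤ y + n ∧
    run L (replicate n (.l μ)) (x, μ) = (y, μ) ∧ ∀ c, y ≤ c → c < x → L.h μ c := by
  obtain ⟨y, h1, h2, h3, h4⟩ := stayrow (L := L.mir) n (-x) μ
  refine ⟨-y, by omega, by omega, ?_, ?_⟩
  · rw [run_l_eq]; simp only [mq]; rw [h3]
  · intro c h5 h6
    have := h4 (-c - 1) (by omega) (by omega)
    rw [mir_h] at this
    convert this using 1; ring

/-- once a rung column has been passed in mode `μ`, the row is `μ` -/
lemma row_after (n : ℕ) : ∀ (μ : Bool) (g : ℤ) (_ : L.v g) (q : St) (_ : q.1 < g ∨ q.2 = μ),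
    g ≤ (run L (replicate n (.r μ)) q).1 → (run L (replicate n (.r μ)) q).2 = μ := by
  induction n with
  | zero =>
    intro μ g hg q h
    simp only [replicate_zero, run_nil]
    intro h'
    rcases h with h | h
    · omega
    · exact h
  | succ n ih =>
    intro μ g hg q h
    rw [replicate_succ, run_cons]
    apply ih μ g hg
    rcases h with h | h
    · rcases lt_or_ge (act L (.r μ) q).1 g with h1 | h1
      · exact Or.inl h1
      · right
        have := (act_r_le (L := L) μ q).2
        have e : (act L (.r μ) q).1 = g := by omega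
        apply act_norm_r; rw [e]; exact hg
    · right
      by_cases h1 : L.h q.2 q.1
      · simp only [act, h1, if_true]; split_ifs <;> simp [h]
      · simp only [act, h1, if_false]; split_ifs <;> simp [h]

/-- structure of a dead end on the right -/
theorem tail {r x : ℤ} {ρ : Bool} {n : ℕ} (hx : x < r) (hb : ¬ L.h ρ x) (hc : C L r n (x, ρ)) :
    ∃ g, g ≤ x ∧ x ≤ g + n ∧ L.v g ∧ (∀ c, g < c → c ≤ x → ¬ L.v c) ∧
      (∀ c, g ≤ c → c < x → L.h ρ c) ∧ (∀ c, g ≤ c → c ≤ x → L.h (!ρ) c) := by
  have key : ∀ (m : ℕ) (q : St), C L r m q → ∀ c, c ≤ x → q = (c, ρ) →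
      (∀ c', c ≤ c' → c' < x → L.h ρ c') →
      ∃ g, g ≤ x ∧ c ≤ g + m ∧ L.v g ∧ (∀ c', g ≤ c' → c' < x → L.h ρ c') := by
    intro m q hq
    induction hq with
    | base n q h =>
      intro c hc1 e; subst e; simp only at h; omega
    | step n p q hpq _ ih =>
      intro c hc1 e hh
      subst e
      rcases hpq with ⟨e, ⟨h1, h2⟩ | ⟨h1, h2⟩⟩ | ⟨e, h1, h2⟩
      · simp only at e h1 h2
        have hcx : c ≠ x := by rintro rfl; exact hb h2
        obtain ⟨g, g1, g2, g3, g4⟩ := ih (c + 1) (by omega) (Prod.ext h1 e.symm)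
          (fun c' h3 h4 => hh c' (by omega) h4)
        exact ⟨g, g1, by push_cast; omega, g3, g4⟩
      · simp only at e h1 h2
        obtain ⟨g, g1, g2, g3, g4⟩ := ih q.1 (by omega) (Prod.ext rfl e.symm)
          (fun c' h3 h4 => by
            rcases eq_or_lt_of_le h3 with h5 | h5
            · rw [← h5]; exact h2
            · exact hh c' (by omega) h4)
        exact ⟨g, g1, by push_cast; omega, g3, g4⟩
      · simp only at e h1 h2
        exact ⟨c, hc1, by push_cast; omega, h2, hh⟩
  obtain ⟨g0, g1, g2, g3, g4⟩ := key n (x, ρ) hc x le_rfl rfl (fun c h1 h2 => by omega)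
  obtain ⟨g, ⟨k1, k2, k3⟩, k4⟩ := Int.exists_greatest_of_bdd
    (P := fun z => g0 ≤ z ∧ z ≤ x ∧ L.v z) ⟨x, fun z hz => hz.2.1⟩ ⟨g0, le_rfl, g1, g3⟩
  refine ⟨g, k2, by omega, k3, ?_, fun c h1 h2 => g4 c (by omega) h2, ?_⟩
  · intro c h1 h2 h3
    have := k4 c ⟨by omega, h2, h3⟩
    omega
  · intro c h1 h2
    by_contra hcc
    have nv : ∀ c, g < c → c ≤ x → ¬ L.v c := by
      intro c h1 h2 h3
      have := k4 c ⟨by omega, h2, h3⟩
      omega
    have inv : ∀ (m : ℕ) (q : St), C L r m q → q.1 ≤ x → (q.2 ≠ ρ → q.1 ≤ c) → False := by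
      intro m q hq
      induction hq with
      | base n q h => intro h5 _; omega
      | step n p q hpq _ ih =>
        intro h5 h6
        rcases hpq with ⟨e, ⟨e1, e2⟩ | ⟨e1, e2⟩⟩ | ⟨e, e1, e2⟩
        · apply ih
          · by_cases h7 : p.2 = ρ
            · have : p.1 ≠ x := by rintro h8; rw [h7, h8] at e2; exact hb e2
              omega
            · have h8 := h6 h7
              have : p.1 ≠ c := by
                intro h9
                have h10 : p.2 = !ρ := bool_ne h7
                rw [h9, h10] at e2; exact hcc e2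
              omega
          · intro h7
            rw [← e] at h7
            have h8 := h6 h7
            have : p.1 ≠ c := by
              intro h9
              have h10 : p.2 = !ρ := bool_ne h7
              rw [h9, h10] at e2; exact hcc e2
            omega
        · apply ih
          · omega
          · intro h7
            rw [← e] at h7
            have h8 := h6 h7
            omega
        · apply ih
          · omega
          · intro _
            have : p.1 ≤ g := by
              by_contra h7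
              exact nv p.1 (by omega) h5 e2
            omega
    exact inv n (x, ρ) hc le_rfl (fun h => absurd rfl h)

/-- structure of a dead end on the left -/
theorem l_tail {r x : ℤ} {ρ : Bool} {n : ℕ} (hx : r < x) (hb : ¬ L.h ρ (x - 1))
    (hc : C L r n (x, ρ)) :
    ∃ g, x ≤ g ∧ g ≤ x + n ∧ L.v g ∧ (∀ c, x ≤ c → c < g → ¬ L.v c) ∧
      (∀ c, x ≤ c → c < g → L.h ρ c) ∧ (∀ c, x - 1 ≤ c → c < g → L.h (!ρ) c) := by
  have hc' := hc.mir
  have hb' : ¬ L.mir.h ρ (-x) := by
    rw [mir_h]; simpa using hb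
  obtain ⟨g, h1, h2, h3, h4, h5, h6⟩ := tail (L := L.mir) (x := -x) (by omega) hb' hc'
  refine ⟨-g, by omega, by omega, h3, ?_, ?_, ?_⟩
  · intro c k1 k2 k3
    apply h4 (-c) (by omega) (by omega)
    rw [mir_v, neg_neg]; exact k3
  · intro c k1 k2
    have := h5 (-c - 1) (by omega) (by omega)
    rw [mir_h] at this
    convert this using 1; ring
  · intro c k1 k2
    have := h6 (-c - 1) (by omega) (by omega)
    rw [mir_h] at this
    convert this using 1; ring

end Pool.H79.Maze
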