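import Pool.Agent.H79.Maze.Runs

namespace Pool.H79.Maze

open List

variable {L : Lad}

/-- the run to the right in mode `δ` sees `(s, δ)` or stops before the gate `r` -/
lemma run2 {r s : ℤ} {δ : Bool} (hr : r ≤ s) (hv : L.v r)
    (hg : ∀ c, r ≤ c → c < s → L.h δ c) (n : ℕ) : ∀ (q : St),
    ((q.1 < r ∧ (L.v q.1 → q.2 = δ)) ∨ (r ≤ q.1 ∧ q.1 < s ∧ q.2 = δ)) → s ≤ q.1 + n →
    vis L s δ (replicate n (.r δ)) q ∨
      ((run L (replicate n (.r δ)) q).1 < r ∧
        act L (.r δ) (run L (replicate n (.r δ)) q) = run L (replicate n (.r δ)) q) := by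
  induction n with
  | zero =>
    intro q h h2
    exfalso
    rcases h with h | h
    · have := h.1; push_cast at h2; omega
    · have := h.2.1; push_cast at h2; omega
  | succ n ih =>
    intro q h h2
    rw [replicate_succ, vis_cons, run_cons]
    rcases h with ⟨h3, h4⟩ | ⟨h3, h4, h5⟩
    · by_cases ho : L.h q.2 q.1
      · have e : (act L (.r δ) q).1 = q.1 + 1 := by simp [act, ho]
        rcases lt_or_ge (q.1 + 1) r with h6 | h6
        · rcases ih (act L (.r δ) q) (Or.inl ⟨by omega, act_norm_r δ q⟩)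
            (by push_cast at h2; omega) with h7 | h7
          · exact Or.inl (Or.inr h7)
          · exact Or.inr h7
        · have e2 : q.1 + 1 = r := by omega
          have e3 : (act L (.r δ) q).2 = δ := act_norm_r δ q (by rw [e, e2]; exact hv)
          rcases eq_or_lt_of_le hr with h7 | h7
          · left; left
            exact ⟨by rw [e, e2, h7], Or.inl e3⟩
          · rcases ih (act L (.r δ) q) (Or.inr ⟨by omega, by omega, e3⟩)
              (by push_cast at h2; omega) with h7 | h7
            · exact Or.inl (Or.inr h7)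
            · exact Or.inr h7
      · have e : act L (.r δ) q = q := by
          by_cases hvv : L.v q.1
          · have := h4 hvv
            ext
            · simp [act, ho]
            · simp only [act, ho, if_false, hvv, if_true]; exact this.symm
          · ext <;> simp [act, ho, hvv]
        right
        rw [e, run_fix e n]
        exact ⟨h3, e⟩
    · have ho : L.h q.2 q.1 := by rw [h5]; exact hg _ h3 h4
      have e : act L (.r δ) q = (q.1 + 1, δ) := by
        have : q = (q.1, δ) := Prod.ext rfl h5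
        rw [this]
        exact act_r_same (by rw [h5] at ho; exact ho)
      rw [e]
      rcases eq_or_lt_of_le (show q.1 + 1 ≤ s by omega) with h6 | h6
      · left; left; exact ⟨h6, Or.inl rfl⟩
      · rcases ih (q.1 + 1, δ) (Or.inr ⟨by simp only; omega, h6, rfl⟩)
          (by push_cast at h2; simp only; omega) with h7 | h7
        · exact Or.inl (Or.inr h7)
        · exact Or.inr h7

/-- the same without normalisation -/
lemma run2' {r s : ℤ} {δ : Bool} (hr : r ≤ s) (hv : L.v r)
    (hg : ∀ c, r ≤ c → c < s → L.h δ c) (n : ℕ) (q : St) (hq : q.1 < r)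
    (hn : s + 1 ≤ q.1 + n) :
    vis L s δ (replicate n (.r δ)) q ∨
      ((run L (replicate n (.r δ)) q).1 < r ∧
        act L (.r δ) (run L (replicate n (.r δ)) q) = run L (replicate n (.r δ)) q) := by
  obtain ⟨n, rfl⟩ : ∃ k, n = k + 1 := ⟨n - 1, by omega⟩
  rw [replicate_succ, vis_cons, run_cons]
  have h1 := act_r_le (L := L) δ q
  have h2 := act_norm_r (L := L) δ q
  rcases lt_or_ge (act L (.r δ) q).1 r with h3 | h3
  · rcases run2 hr hv hg n _ (Or.inl ⟨h3, h2⟩) (by push_cast at hn; omega) with h | h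
    · exact Or.inl (Or.inr h)
    · exact Or.inr h
  · have e : (act L (.r δ) q).1 = r := by omega
    have e2 := h2 (by rw [e]; exact hv)
    rcases eq_or_lt_of_le hr with h4 | h4
    · left; left; exact ⟨by rw [e, h4], Or.inl e2⟩
    · rcases run2 hr hv hg n _ (Or.inr ⟨h3, by omega, e2⟩) (by push_cast at hn; omega) with h | h
      · exact Or.inl (Or.inr h)
      · exact Or.inr h

lemma blocked_of_fix {μ : Bool} {q : St} (h : act L (.r μ) q = q) : ¬ L.h q.2 q.1 := by
  intro ho
  have : (act L (.r μ) q).1 = q.1 + 1 := by simp [act, ho]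
  rw [h] at this
  omega

/-- dead end in row `δ` before the gate -/
def BT (L : Lad) (r : ℤ) (δ : Bool) (m : ℕ) (q : St) : Prop :=
  q.2 = δ ∧ q.1 < r ∧ ¬ L.h δ q.1 ∧ (∃ n, C L r n q) ∧ ∃ g0, L.v g0 ∧ g0 ≤ q.1 ∧ r ≤ g0 + m

def lam (L : Lad) (q : St) (j : ℕ) : Prop :=
  L.v (q.1 - j) ∧ ∀ c, q.1 - j < c → c ≤ q.1 → ¬ L.v c

lemma lam_unique {q : St} {i j : ℕ} (hi : lam L q i) (hj : lam L q j) : i = j := by
  rcases lt_trichotomy i j with h | h | h
  · exact absurd hi.1 (hj.2 _ (by omega) (by omega))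
  · exact h
  · exact absurd hj.1 (hi.2 _ (by omega) (by omega))

/-- the structure at a dead end -/
lemma BT.str {r : ℤ} {δ : Bool} {m : ℕ} {q : St} (h : BT L r δ m q) :
    ∃ j : ℕ, j ≤ m ∧ lam L q j ∧ (∀ c, q.1 - j ≤ c → c < q.1 → L.h δ c) ∧
      (∀ c, q.1 - j ≤ c → c ≤ q.1 → L.h (!δ) c) ∧
      ∀ g0, L.v g0 → g0 ≤ q.1 → g0 ≤ q.1 - j := by
  obtain ⟨h1, h2, h3, ⟨n, h4⟩, g0, h5, h6, h7⟩ := h
  have e : q = (q.1, δ) := Prod.ext rfl h1
  rw [e] at h4
  obtain ⟨g, k1, k2, k3, k4, k5, k6⟩ := tail h2 h3 h4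
  have hmax : ∀ g0, L.v g0 → g0 ≤ q.1 → g0 ≤ g := by
    intro g0 a b
    by_contra hc
    exact k4 g0 (by omega) b a
  have hg0 := hmax g0 h5 h6
  have ej : q.1 - ((q.1 - g).toNat : ℤ) = g := by omega
  refine ⟨(q.1 - g).toNat, by omega, ⟨?_, ?_⟩, ?_, ?_, ?_⟩
  · rw [ej]; exact k3
  · rw [ej]; exact k4
  · rw [ej]; exact k5
  · rw [ej]; exact k6
  · rw [ej]; exact hmax

def Hw (M : ℕ) (δ : Bool) (β : ℕ) : List Mac :=
  replicate β (.l δ) ++ (.z (!δ) :: replicate M (.r δ))

def rep {α : Type} : ℕ → List α → List α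
  | 0, _ => []
  | n + 1, w => w ++ rep n w

def Qw (m M : ℕ) (δ : Bool) : ℕ → List Mac
  | 0 => []
  | β + 1 => rep (m + 1) (Qw m M δ β ++ Hw M δ β)

lemma run_rep_fix {w : List Mac} {q : St} (h : run L w q = q) (n : ℕ) :
    run L (rep n w) q = q := by
  induction n with
  | zero => rfl
  | succ n ih => rw [rep, run_append, h, ih]

/-- go back at most `a`, return -/
lemma back {x : ℤ} {δ : Bool} (hb : ¬ L.h δ x) (a M : ℕ) (h : a ≤ M) :
    run L (replicate a (.l δ) ++ replicate M (.r δ)) (x, δ) = (x, δ) := by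
  rw [run_append]
  obtain ⟨y, h1, h2, h3, h4⟩ := l_stayrow (L := L) a x δ
  rw [h3]
  have e : M = (x - y).toNat + (M - (x - y).toNat) := by omega
  rw [e, replicate_add, run_append, rowrun _ y δ δ (fun c k1 k2 => h4 c k1 (by omega))
    (fun _ _ _ _ => rfl)]
  have e2 : y + ((x - y).toNat : ℤ) = x := by omega
  rw [e2]
  apply run_fix
  simp [act, hb]

lemma H_neutral {r : ℤ} {δ : Bool} {m M β j : ℕ} {q : St} (h : BT L r δ m q)
    (hj : lam L q j) (hβ : β < j) (hM : m ≤ M) : run L (Hw M δ β) q = q := by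
  obtain ⟨j', h1, h2, h3, h4, -⟩ := h.str
  obtain rfl := lam_unique hj h2
  obtain ⟨e1, -, hb, -⟩ := h
  have e : q = (q.1, δ) := Prod.ext rfl e1
  rw [Hw, run_append, e, l_rowrun β q.1 δ δ (fun c k1 k2 => h3 c (by omega) k2)
    (fun _ _ _ _ => rfl), run_cons]
  have nv : ¬ L.v (q.1 - β) := h2.2 _ (by omega) (by omega)
  have ez : act L (.z (!δ)) (q.1 - β, δ) = (q.1 - β, δ) := by simp [act, nv]
  rw [ez]
  have e3 : M = β + (M - β) := by omega
  rw [e3, replicate_add, run_append, rowrun β _ δ δ (fun c k1 k2 => h3 c (by omega) (by omega))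
    (fun _ _ _ _ => rfl)]
  have e4 : q.1 - (β : ℤ) + β = q.1 := by omega
  rw [e4]
  apply run_fix
  simp [act, hb]

lemma H_step {r s : ℤ} {δ : Bool} (hr : r ≤ s) (hv : L.v r)
    (hg : ∀ c, r ≤ c → c < s → L.h δ c) {m M K j : ℕ} {q : St} (h : BT L r δ m q)
    (hj : lam L q j) (hM : K + m + 1 ≤ M) (hs : s ≤ r + K) :
    vis L s δ (Hw M δ j) q ∨
      (BT L r δ m (run L (Hw M δ j) q) ∧ q.1 < (run L (Hw M δ j) q).1) := by
  obtain ⟨j', h1, h2, h3, h4, h5⟩ := h.str
  obtain rfl := lam_unique hj h2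
  have hBT := h
  obtain ⟨e1, hqr, hb, ⟨n, hC⟩, g0, k1, k2, k3⟩ := h
  have hg0 := h5 g0 k1 k2
  have e : q = (q.1, δ) := Prod.ext rfl e1
  -- arrival at the rung
  have a1 : run L (replicate j (.l δ)) q = (q.1 - j, δ) := by
    conv_lhs => rw [e]
    exact l_rowrun j q.1 δ δ (fun c k1 k2 => h3 c (by omega) k2) (fun _ _ _ _ => rfl)
  have a2 : act L (.z (!δ)) (q.1 - j, δ) = (q.1 - j, !δ) := by
    simp [act, h2.1]
  have a3 : run L (Hw M δ j) q = run L (replicate M (.r δ)) (q.1 - j, !δ) := by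
    rw [Hw, run_append, a1, run_cons, a2]
  have hC' : C L r (n + 2 * (Hw M δ j).length) (run L (Hw M δ j) q) := hC.run _
  rcases run2' hr hv hg M (q.1 - j, !δ) (by simp only; omega) (by simp only; omega) with h6 | h6
  · left
    rw [Hw, vis_append, vis_cons, a1, a2]
    exact Or.inr (Or.inr h6)
  · right
    rw [← a3] at h6
    obtain ⟨h6, h7⟩ := h6
    have hbl := blocked_of_fix h7
    -- passes column q.1
    have hM2 : M = j + (1 + (M - (j + 1))) := by omega
    have b1 : run L (replicate j (.r δ)) (q.1 - j, !δ) = (q.1, !δ) := by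
      rw [rowrun j _ (!δ) δ (fun c k1 k2 => h4 c k1 (by omega))
        (fun c k1 k2 k3 => absurd k3 (h2.2 c k1 (by omega)))]
      ext
      · simp
      · rfl
    have b2 : q.1 < (run L (Hw M δ j) q).1 := by
      rw [a3, hM2, replicate_add, run_append, b1, replicate_add, run_append]
      have c1 := (run_r_le (L := L) (M - (j + 1)) δ
        (run L (replicate 1 (.r δ)) (q.1, !δ))).1
      have c2 : (run L (replicate 1 (.r δ)) (q.1, !δ)).1 = q.1 + 1 := by
        have := h4 q.1 (by omega) le_rfl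
        simp [replicate_succ, act, this]
      omega
    have b3 : (run L (Hw M δ j) q).2 = δ := by
      by_contra hne
      have hne' := bool_ne hne
      have hbl' : ¬ L.h (!δ) (run L (Hw M δ j) q).1 := by rw [← hne']; exact hbl
      have hCx : C L r (n + 2 * (Hw M δ j).length) ((run L (Hw M δ j) q).1, !δ) := by
        have : run L (Hw M δ j) q = ((run L (Hw M δ j) q).1, !δ) := Prod.ext rfl hne'
        rw [← this]; exact hC'
      obtain ⟨g, d1, d2, d3, d4, d5, d6⟩ := tail h6 hbl' hCx
      rcases le_or_gt g q.1 with h8 | h8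
      · apply hb
        have := d6 q.1 h8 (by omega)
        rwa [Bool.not_not] at this
      · apply hne
        rw [a3]
        apply row_after M δ g d3 _ (Or.inl (by simp only; omega))
        rw [← a3]; exact d1
    have hbl2 : ¬ L.h δ (run L (Hw M δ j) q).1 := by
      have h9 := hbl
      rwa [b3] at h9
    exact ⟨⟨b3, h6, hbl2, ⟨_, hC'⟩, g0, k1, by omega, k3⟩, b2⟩

lemma Q_stable {r : ℤ} {δ : Bool} {m M : ℕ} (hM : m ≤ M) (β : ℕ) : ∀ (q : St),
    BT L r δ m q → (∀ j, lam L q j → β ≤ j) → run L (Qw m M δ β) q = q := by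
  induction β with
  | zero => intro q _ _; rfl
  | succ β ih =>
    intro q h hl
    rw [Qw]
    apply run_rep_fix
    rw [run_append, ih q h (fun j hj => by have := hl j hj; omega)]
    obtain ⟨j, -, hj, -⟩ := h.str
    exact H_neutral h hj (by have := hl j hj; omega) hM

theorem ruler {r s : ℤ} {δ : Bool} (hr : r ≤ s) (hv : L.v r)
    (hg : ∀ c, r ≤ c → c < s → L.h δ c) {m M K : ℕ} (hM : K + m + 1 ≤ M) (hs : s ≤ r + K)
    (β : ℕ) : ∀ (q : St), BT L r δ m q →
    vis L s δ (Qw m M δ β) q ∨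
      (BT L r δ m (run L (Qw m M δ β) q) ∧ q.1 ≤ (run L (Qw m M δ β) q).1 ∧
        ∀ j, lam L (run L (Qw m M δ β) q) j → β ≤ j) := by
  induction β with
  | zero => intro q h; exact Or.inr ⟨h, le_rfl, fun j _ => Nat.zero_le j⟩
  | succ β ih =>
    have it : ∀ (i : ℕ) (q : St), BT L r δ m q →
        vis L s δ (rep i (Qw m M δ β ++ Hw M δ β)) q ∨
        (BT L r δ m (run L (rep i (Qw m M δ β ++ Hw M δ β)) q) ∧
          q.1 ≤ (run L (rep i (Qw m M δ β ++ Hw M δ β)) q).1 ∧
          ((∀ j, lam L (run L (rep i (Qw m M δ β ++ Hw M δ β)) q) j → β + 1 ≤ j) ∨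
            q.1 + i ≤ (run L (rep i (Qw m M δ β ++ Hw M δ β)) q).1)) := by
      intro i
      induction i with
      | zero => intro q h; exact Or.inr ⟨h, le_rfl, Or.inr (by simp [rep])⟩
      | succ i ihi =>
        intro q h
        simp only [rep, vis_append, run_append]
        rcases ih q h with h1 | ⟨h1, h2, h3⟩
        · exact Or.inl (Or.inl (Or.inl h1))
        · obtain ⟨j, hj1, hj, -⟩ := h1.str
          have hβj := h3 j hj
          rcases eq_or_lt_of_le hβj with e | e
          · subst e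
            rcases H_step hr hv hg h1 hj hM hs with h4 | ⟨h4, h5⟩
            · exact Or.inl (Or.inl (Or.inr h4))
            · rcases ihi _ h4 with h6 | ⟨h6, h7, h8⟩
              · exact Or.inl (Or.inr h6)
              · refine Or.inr ⟨h6, by omega, ?_⟩
                rcases h8 with h8 | h8
                · exact Or.inl h8
                · right; push_cast; omega
          · have hn := H_neutral (M := M) h1 hj e (by omega)
            rw [hn]
            have hl : ∀ j', lam L (run L (Qw m M δ β) q) j' → β + 1 ≤ j' := by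
              intro j' hj'
              rw [lam_unique hj' hj]; exact e
            have hst : run L (Qw m M δ β ++ Hw M δ β) (run L (Qw m M δ β) q) =
                run L (Qw m M δ β) q := by
              rw [run_append, Q_stable (by omega) β _ h1 h3, hn]
            rw [run_rep_fix hst]
            exact Or.inr ⟨h1, h2, Or.inl hl⟩
    intro q h
    rw [Qw]
    rcases it (m + 1) q h with h1 | ⟨h1, h2, h3⟩
    · exact Or.inl h1
    · refine Or.inr ⟨h1, h2, ?_⟩
      rcases h3 with h3 | h3
      · exact h3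
      · exfalso
        obtain ⟨-, -, -, -, g0, k1, k2, k3⟩ := h
        have := h1.2.1
        push_cast at h3
        omega

/-- the whole right sweep -/
def Rw (K : ℕ) (δ : Bool) : List Mac :=
  replicate (2 * K + 1) (.r δ) ++
    (replicate (6 * K + 2) (.l δ) ++
      (replicate (20 * K + 10) (.r δ) ++ Qw (6 * K + 2) (20 * K + 10) δ (6 * K + 3)))

theorem right_sweep {r s : ℤ} {δ : Bool} (hr : r ≤ s) (hv : L.v r)
    (hg : ∀ c, r ≤ c → c < s → L.h δ c) {K : ℕ} (hs : s ≤ r + K) (q : St)
    (hq : q.1 < r ∨ (q.1 = r ∧ q.2 = δ ∧ r < s)) (hC : C L r K q) :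
    vis L s δ (Rw K δ) q := by
  have hd := hC.dist
  -- first run
  have first : vis L s δ (replicate (2 * K + 1) (.r δ)) q ∨
      ((run L (replicate (2 * K + 1) (.r δ)) q).1 < r ∧
        act L (.r δ) (run L (replicate (2 * K + 1) (.r δ)) q) =
          run L (replicate (2 * K + 1) (.r δ)) q) := by
    rcases hq with hq | ⟨h1, h2, h3⟩
    · exact run2' hr hv hg _ q hq (by push_cast; omega)
    · exact run2 hr hv hg _ q (Or.inr ⟨by omega, by omega, h2⟩) (by push_cast; omega)
  rw [Rw, vis_append]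
  rcases first with h1 | ⟨h1, h2⟩
  · exact Or.inl h1
  right
  set q1 := run L (replicate (2 * K + 1) (.r δ)) q with hq1
  have hC1 : C L r (K + 2 * (2 * K + 1)) q1 := by
    have := hC.run (replicate (2 * K + 1) (.r δ))
    rwa [length_replicate] at this
  have hx1 : q.1 ≤ q1.1 := (run_r_le (L := L) _ δ q).1
  have hbl := blocked_of_fix h2
  obtain ⟨g, g1, g2, g3, g4, g5, g6⟩ := tail (ρ := q1.2) h1 hbl hC1
  have hgm : r ≤ g + (6 * K + 2 : ℕ) := by push_cast at g2 ⊢; omega
  have fin : ∀ q2, BT L r δ (6 * K + 2) q2 →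
      vis L s δ (Qw (6 * K + 2) (20 * K + 10) δ (6 * K + 3)) q2 := by
    intro q2 h
    rcases ruler hr hv hg (K := K) (M := 20 * K + 10) (by omega) hs (6 * K + 3) q2 h with
      h3 | ⟨h3, h4, h5⟩
    · exact h3
    · exfalso
      obtain ⟨j, j1, j2, -⟩ := h3.str
      have := h5 j j2
      omega
  by_cases hrow : q1.2 = δ
  · have hBT : BT L r δ (6 * K + 2) q1 :=
      ⟨hrow, h1, by rw [← hrow]; exact hbl, ⟨_, hC1⟩, g, g3, g1, hgm⟩
    rw [vis_append]; right
    rw [vis_append]; right
    rw [← run_append]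
    have e : q1 = (q1.1, δ) := Prod.ext rfl hrow
    have hb := back (L := L) hBT.2.2.1 (6 * K + 2) (20 * K + 10) (by omega)
    rw [← e] at hb
    rw [hb]
    exact fin q1 hBT
  · have hrow' := bool_ne hrow
    have nrow : (!q1.2) = δ := by rw [hrow', Bool.not_not]
    rw [nrow] at g6
    have nv : ¬ L.v q1.1 := by
      intro hvv
      have h3 : (act L (.r δ) q1).2 = δ := act_norm_r δ q1 (by rw [h2]; exact hvv)
      rw [h2] at h3
      exact hrow h3
    have hgx : g < q1.1 := by
      rcases eq_or_lt_of_le g1 with e | e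
      · rw [e] at g3; exact absurd g3 nv
      · exact e
    -- walk back to the rung
    obtain ⟨i, hi⟩ : ∃ i : ℕ, q1.1 - g = i + 1 := ⟨(q1.1 - g - 1).toNat, by omega⟩
    have w1 : run L (replicate i (.l δ)) q1 = (q1.1 - i, q1.2) := by
      have e : q1 = (q1.1, q1.2) := rfl
      conv_lhs => rw [e]
      exact l_rowrun i q1.1 q1.2 δ (fun c k1 k2 => g5 c (by omega) k2)
        (fun c k1 k2 k3 => absurd k3 (g4 c (by omega) (by omega)))
    have w2 : run L (replicate 1 (.l δ)) (q1.1 - i, q1.2) = (g, δ) := by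
      have o : L.h q1.2 (q1.1 - i - 1) := g5 _ (by omega) (by omega)
      have e5 : q1.1 - i - 1 = g := by omega
      simp only [replicate_succ, replicate_zero, run_cons, run_nil, act]
      rw [if_pos o, e5, if_pos g3]
    obtain ⟨y, y1, y2, y3, y4⟩ := l_stayrow (L := L) (6 * K + 2 - (i + 1)) g δ
    have w3 : run L (replicate (6 * K + 2) (.l δ)) q1 = (y, δ) := by
      have e : 6 * K + 2 = i + (1 + (6 * K + 2 - (i + 1))) := by omega
      rw [e, replicate_add, run_append, w1, replicate_add, run_append, w2]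
      exact y3
    rw [vis_append]; right
    rw [vis_append]
    rw [w3]
    have hy : s + 1 ≤ y + ((20 * K + 10 : ℕ) : ℤ) := by push_cast; omega
    rcases run2' hr hv hg (20 * K + 10) (y, δ) (by simp only; omega) hy with h3 | ⟨h3, h4⟩
    · exact Or.inl h3
    right
    have hC2 : C L r (K + 2 * (2 * K + 1) + 2 * (6 * K + 2) + 2 * (20 * K + 10))
        (run L (replicate (20 * K + 10) (.r δ)) (y, δ)) := by
      have h5 := (hC1.run (replicate (6 * K + 2) (.l δ))).run (replicate (20 * K + 10) (.r δ))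
      rw [length_replicate, length_replicate, w3] at h5
      exact h5
    obtain ⟨z, z1, z2, z3, z4⟩ := stayrow (L := L) (20 * K + 10) y δ
    rw [z3] at h3 h4 hC2 ⊢
    have hb2 := blocked_of_fix h4
    -- reaches column g
    have hgz : g ≤ z := by
      by_contra hc
      exact hb2 (y4 z z1 (by omega))
    apply fin
    exact ⟨rfl, h3, hb2, ⟨_, hC2⟩, g, g3, hgz, hgm⟩

end Pool.H79.Maze
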